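import Pool.Agent.Helper70.SUB.Defs

/-!
Project SUB, first part: Siegel's lemma, Roth's lemma, the Roth machine.
-/

set_option autoImplicit false

namespace Pool.Agent.Helper70.SUB

open Finset

/-! ## A. Absolute values, Hasse derivatives, norms -/

/-- (AV) absolute values and the product formula -/
def ST_AV : Prop :=
  (∀ v x, 0 ≤ av v x) ∧ (∀ v, av v 0 = 0) ∧
  (∀ (S : Finset ℕ), (∀ p ∈ S, p.Prime) →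
    (∀ v ∈ plc S, ∀ x, x ≠ 0 → 0 < av v x) ∧
    (∀ v ∈ plc S, ∀ x y, av v (x * y) = av v x * av v y) ∧
    (∀ v ∈ plc S, ∀ x y, av v (x + y) ≤ av v x + av v y) ∧
    (∀ p ∈ S, ∀ x y, av (some p) (x + y) ≤ max (av (some p) x) (av (some p) y)) ∧
    (∀ p ∈ S, ∀ z : ℤ, av (some p) z ≤ 1) ∧
    (∀ p ∈ S, ∀ z : ℤ, z ≠ 0 → 1 ≤ av (some p) z * |(z : ℝ)|) ∧
    (∀ z : ℤ, z ≠ 0 → 1 ≤ ∏ v ∈ plc S, av v z) ∧
    (∀ z : ℤ, z ≠ 0 → (∀ q : ℕ, q.Prime → (q : ℤ) ∣ z → q ∈ S) → ∏ v ∈ plc S, av v z = 1) ∧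
    (∀ v ∈ plc S, ∀ (ι : Type) (s : Finset ι) (f : ι → ℚ) (b : ℝ), 0 ≤ b →
      (∀ i ∈ s, av v (f i) ≤ b) →
      av v (∑ i ∈ s, f i) ≤ (if v = none then (s.card : ℝ) else 1) * b))

/-- (HD) basic facts on Hasse derivatives -/
def ST_HD : Prop := ∀ (σ R : Type) [Fintype σ] [DecidableEq σ] [CommRing R],
  (∀ (P : MvPolynomial σ R) (I J : σ →₀ ℕ),
    (hd J P).coeff I = (∏ s, ((I s + J s).choose (J s) : R)) * P.coeff (I + J)) ∧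
  (∀ (P Q : MvPolynomial σ R) (J : σ →₀ ℕ), hd J (P + Q) = hd J P + hd J Q) ∧
  (∀ (P Q : MvPolynomial σ R) (J : σ →₀ ℕ),
    hd J (P * Q) = ∑ x ∈ Finset.HasAntidiagonal.antidiagonal J, hd x.1 P * hd x.2 Q) ∧
  (∀ (P : MvPolynomial σ R) (α : σ → R) (J : σ →₀ ℕ), shf α (hd J P) = hd J (shf α P)) ∧
  (∀ (P : MvPolynomial σ R) (α : σ → R) (J : σ →₀ ℕ),
    (shf α P).coeff J = MvPolynomial.eval α (hd J P)) ∧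
  (∀ (P : MvPolynomial σ R), hd 0 P = P) ∧
  (∀ (P : MvPolynomial σ R) (J J' : σ →₀ ℕ),
    hd J (hd J' P) = MvPolynomial.C (∏ s, ((J s + J' s).choose (J s) : R)) * hd (J + J') P) ∧
  (∀ (P : MvPolynomial σ R) (J : σ →₀ ℕ) (s : σ), (hd J P).degreeOf s ≤ P.degreeOf s - J s) ∧
  (∀ (P : MvPolynomial σ ℤ) (J : σ →₀ ℕ), toQ (hd J P) = hd J (toQ P))

/-- (L1) facts on the norm `l1` -/
def ST_L1 : Prop := ∀ (σ : Type) [Fintype σ] [DecidableEq σ],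
  (∀ P Q : MvPolynomial σ ℤ, l1 (P * Q) ≤ l1 P * l1 Q) ∧
  (∀ P Q : MvPolynomial σ ℤ, l1 (P + Q) ≤ l1 P + l1 Q) ∧
  (∀ (P : MvPolynomial σ ℤ) (J : σ →₀ ℕ), |P.coeff J| ≤ l1 P) ∧
  (∀ (P : MvPolynomial σ ℤ) (r : σ → ℕ) (H : ℤ), (∀ s, P.degreeOf s ≤ r s) →
    (∀ J, |P.coeff J| ≤ H) → l1 P ≤ 2 ^ (∑ s, r s) * H) ∧
  (∀ (P : MvPolynomial σ ℤ) (r : σ → ℕ) (J : σ →₀ ℕ), (∀ s, P.degreeOf s ≤ r s) →
    l1 (hd J P) ≤ 2 ^ (∑ s, r s) * l1 P) ∧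
  (∀ (k : ℕ) (M : Matrix (Fin k) (Fin k) (MvPolynomial σ ℤ)) (H : ℤ), (∀ i j, l1 (M i j) ≤ H) →
    l1 M.det ≤ (k.factorial : ℤ) * H ^ k)

/-! ## B. Roth's lemma -/

/-- (ROTH1) one variable (Gauss lemma) -/
def ST_ROTH1 : Prop := ∀ (ε ω B : ℝ) (f : Polynomial ℤ) (r : ℕ) (p q : ℤ), 0 < ω → ω < ε →
  f ≠ 0 → 1 ≤ r → 1 ≤ q → IsCoprime p q → 1 < B → B ≤ (q : ℝ) ^ r →
  (∀ i, |((f.coeff i : ℤ) : ℝ)| ≤ B ^ ω) →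
  ∃ J : ℕ, (((f.map (Int.castRingHom ℚ)).comp
    (Polynomial.X + Polynomial.C ((p : ℚ) / q))).coeff J ≠ 0) ∧ (J : ℝ) < ε * r

/-- (GWR) generalized Wronskians; use `Pool.Agent.Helper41.CR.st_WRO` (one variable) and a
Kronecker substitution -/
def ST_GWR : Prop := ∀ (m k : ℕ) (φ : Fin k → MvPolynomial (Fin m) ℤ), LinearIndependent ℤ φ →
  ∃ Δ : Fin k → (Fin m →₀ ℕ), (∀ i, ∑ h, Δ i h ≤ (i : ℕ)) ∧
    (Matrix.of fun i j => hd (Δ i) (φ j)).det ≠ 0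

/-- the embedding of polynomials in the first variable -/
noncomputable def e0 {m : ℕ} {R : Type} [CommRing R] (f : Polynomial R) :
    MvPolynomial (Fin (m + 1)) R :=
  Polynomial.aeval (MvPolynomial.X 0 : MvPolynomial (Fin (m + 1)) R) f

/-- (RANKD) decomposition of minimal length -/
def ST_RANKD : Prop := ∀ (m : ℕ) (P : MvPolynomial (Fin (m + 1)) ℤ) (r : Fin (m + 1) → ℕ),
  P ≠ 0 → (∀ h, P.degreeOf h ≤ r h) →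
  ∃ (k : ℕ) (φ : Fin k → MvPolynomial (Fin m) ℤ) (ψ : Fin k → Polynomial ℚ),
    1 ≤ k ∧ k ≤ r 0 + 1 ∧ LinearIndependent ℤ φ ∧ LinearIndependent ℚ ψ ∧
    (∀ i h, (φ i).degreeOf h ≤ r h.succ) ∧ (∀ i, (ψ i).natDegree ≤ r 0) ∧
    toQ P = ∑ i, MvPolynomial.rename Fin.succ (toQ (φ i)) * e0 (ψ i)

/-- (WFAC) the Wronskian determinant factors -/
def ST_WFAC : Prop := ∀ (m k : ℕ) (P : MvPolynomial (Fin (m + 1)) ℤ)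
  (φ : Fin k → MvPolynomial (Fin m) ℤ) (ψ : Fin k → Polynomial ℚ),
  LinearIndependent ℤ φ → LinearIndependent ℚ ψ →
  toQ P = ∑ i, MvPolynomial.rename Fin.succ (toQ (φ i)) * e0 (ψ i) →
  ∃ (Δ : Fin k → (Fin m →₀ ℕ)) (V : MvPolynomial (Fin m) ℚ) (U : Polynomial ℚ),
    (∀ i, ∑ h, Δ i h ≤ (i : ℕ)) ∧ V ≠ 0 ∧ U ≠ 0 ∧
    toQ (Matrix.of fun i j : Fin k =>
      hd (Finsupp.cons (j : ℕ) (Δ i) : Fin (m + 1) →₀ ℕ) P).det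
      = MvPolynomial.rename Fin.succ V * e0 U

/-- (SPLT) integral splitting of a product of polynomials in disjoint variables -/
def ST_SPLT : Prop := ∀ (m : ℕ) (W : MvPolynomial (Fin (m + 1)) ℤ) (V : MvPolynomial (Fin m) ℚ)
  (U : Polynomial ℚ), V ≠ 0 → U ≠ 0 → toQ W = MvPolynomial.rename Fin.succ V * e0 U →
  ∃ (V' : MvPolynomial (Fin m) ℤ) (U' : Polynomial ℤ), V' ≠ 0 ∧ U' ≠ 0 ∧
    W = MvPolynomial.rename Fin.succ V' * e0 U' ∧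
    (∀ H : ℤ, (∀ J, |W.coeff J| ≤ H) → (∀ J, |V'.coeff J| ≤ H) ∧ ∀ i, |U'.coeff i| ≤ H) ∧
    (∀ h, V'.degreeOf h ≤ W.degreeOf h.succ) ∧ U'.natDegree ≤ W.degreeOf 0

/-- (SHP) the expansion of such a product at a point -/
def ST_SHP : Prop := ∀ (m : ℕ) (V : MvPolynomial (Fin m) ℚ) (U : Polynomial ℚ)
  (α : Fin (m + 1) → ℚ) (j : ℕ) (J : Fin m →₀ ℕ),
  (shf α (MvPolynomial.rename Fin.succ V * e0 U)).coeff (Finsupp.cons j J)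
    = (shf (fun h => α h.succ) V).coeff J *
      (U.comp (Polynomial.X + Polynomial.C (α 0))).coeff j

/-- (IDX) index calculus: index of a determinant of derivatives -/
def ST_IDX : Prop := ∀ (m k : ℕ) (P : MvPolynomial (Fin (m + 1)) ℚ) (α : Fin (m + 1) → ℚ)
  (r : Fin (m + 1) → ℕ) (Δ : Fin k → (Fin m →₀ ℕ)) (θ ω : ℝ),
  (∀ h, 1 ≤ r h) → (∀ h : Fin m, (r 0 : ℝ) ≤ ω * r h.succ) → k ≤ r 0 + 1 →
  (∀ i, ∑ h, Δ i h ≤ (i : ℕ)) → 0 < θ → θ ≤ 1 → ω ≤ θ / 2 →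
  IndGE (fun h => 1 / (r h : ℝ)) θ (shf α P) →
  IndGE (fun h => 1 / (r h : ℝ)) (k * θ ^ 2 / 32) (shf α (Matrix.of fun i j : Fin k =>
      hd (Finsupp.cons (j : ℕ) (Δ i) : Fin (m + 1) →₀ ℕ) P).det)

/-- (ROTH) Roth's lemma; the degrees increase with the index -/
def ST_ROTH : Prop := ∀ (m : ℕ) (ε : ℝ), 1 ≤ m → 0 < ε → ∃ ω : ℝ, 0 < ω ∧
  ∀ (r : Fin m → ℕ) (p q : Fin m → ℤ) (B : ℝ) (P : MvPolynomial (Fin m) ℤ),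
    (∀ h, 1 ≤ r h) → (∀ h h' : Fin m, h < h' → (r h : ℝ) ≤ ω * r h') →
    (∀ h, 1 ≤ q h ∧ IsCoprime (p h) (q h)) → 1 < B → (∀ h, B ≤ (q h : ℝ) ^ (r h)) →
    (∀ h, (2 : ℝ) ^ (r h) ≤ B ^ ω) → P ≠ 0 → (∀ h, P.degreeOf h ≤ r h) →
    (∀ J, |((P.coeff J : ℤ) : ℝ)| ≤ B ^ ω) →
    ∃ J : Fin m →₀ ℕ, (shf (fun h => (p h : ℚ) / q h) (toQ P)).coeff J ≠ 0 ∧
      ∑ h, (J h : ℝ) / r h < ε

/-! ## C. The auxiliary polynomial -/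

/-- (CHEB) Chebyshev's inequality for a product of finite sets -/
def ST_CHEB : Prop := ∀ (m : ℕ) (τ : Type) [DecidableEq τ] (T : Fin m → Finset τ)
  (f : Fin m → τ → ℝ) (e : ℝ), 0 < e → (∀ h, ∀ t ∈ T h, |f h t| ≤ 1) →
  (∀ h, ∑ t ∈ T h, f h t = 0) →
  (((Fintype.piFinset T).filter (fun t => e * m < |∑ h, f h (t h)|)).card : ℝ) * (e ^ 2 * m)
    ≤ ∏ h, ((T h).card : ℝ)

/-- (MEAN) the mean of a coordinate on the simplex -/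
def ST_MEAN : Prop := ∀ (n r : ℕ) (i : Fin n), 1 ≤ r →
  ∑ j ∈ Finset.piAntidiag (Finset.univ : Finset (Fin n)) r, ((j i : ℝ) / r - 1 / n) = 0

/-- (LSB) size and homogeneity under a linear substitution -/
def ST_LSB : Prop := ∀ (m n : ℕ) (r : Fin m → ℕ) (P : MvPolynomial (Fin m × Fin n) ℤ)
  (N : Matrix (Fin n) (Fin n) ℤ) (a : ℤ), (∀ i k, |N i k| ≤ a) → MH r P →
  MH r (lsub N P) ∧ l1 (lsub N P) ≤ (n * a) ^ (∑ h, r h) * l1 P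

/-- (SIEG) the auxiliary polynomial -/
def ST_SIEG : Prop := ∀ (n : ℕ) (κ : Type) [Fintype κ] (N : κ → Matrix (Fin n) (Fin n) ℤ) (ε : ℝ),
  1 ≤ n → 0 < ε → ∃ m0 : ℕ, ∀ m, m0 ≤ m → ∃ C : ℝ, 1 ≤ C ∧ ∀ r : Fin m → ℕ, (∀ h, 1 ≤ r h) →
    ∃ P : MvPolynomial (Fin m × Fin n) ℤ, P ≠ 0 ∧ MH r P ∧
      (∀ J, |((P.coeff J : ℤ) : ℝ)| ≤ C ^ (∑ h, r h)) ∧
      ∀ v J, (lsub (N v) P).coeff J ≠ 0 →
        ∀ i, |∑ h, (J (h, i) : ℝ) / r h - m / n| ≤ ε * m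

/-- (DSUP) the support of a derivative after a linear substitution -/
def ST_DSUP : Prop := ∀ (m n : ℕ) (N : Matrix (Fin n) (Fin n) ℚ)
  (P : MvPolynomial (Fin m × Fin n) ℚ) (J0 J : Fin m × Fin n →₀ ℕ), N.det ≠ 0 →
  (lsub N (hd J0 P)).coeff J ≠ 0 →
  ∃ J' : Fin m × Fin n →₀ ℕ, (∀ h, ∑ i, J' (h, i) = ∑ i, J0 (h, i)) ∧
    (lsub N P).coeff (J + J') ≠ 0

/-- (EVAL) the size of the values: `N (A x) = d x` -/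
def ST_EVAL : Prop := ∀ (m n : ℕ) (S : Finset ℕ), (∀ p ∈ S, p.Prime) → ∀ v ∈ plc S,
  ∀ (A : Matrix (Fin n) (Fin n) ℚ) (N : Matrix (Fin n) (Fin n) ℤ) (d : ℕ) (C : ℝ), 1 ≤ d →
  N.map (Int.cast : ℤ → ℚ) * A = (d : ℚ) • 1 → ((d : ℝ) ≤ C) → (∀ i k, (n : ℝ) * |(N i k : ℝ)| ≤ C) →
  1 ≤ C →
  ∀ (r : Fin m → ℕ) (F : MvPolynomial (Fin m × Fin n) ℤ) (x : Fin m → Fin n → ℤ) (b : ℝ),
    MH r F → 0 ≤ b →
    (∀ J, (lsub N F).coeff J ≠ 0 →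
      ∏ hi : Fin m × Fin n, (av v (A.mulVec (cv (x hi.1)) hi.2)) ^ (J hi) ≤ b) →
    av v ((MvPolynomial.eval (bl x) F : ℤ) : ℚ) ≤ C ^ (∑ h, r h) * (l1 F : ℝ) * b

/-- (VAN) vanishing at small points. `x` satisfies the inequalities of the box with exponents
`c v i - δ` (real place) and `c v i` (other places), up to the factor `K`. -/
def ST_VAN : Prop := ∀ (n : ℕ) (S : Finset ℕ) (A : Option ℕ → Matrix (Fin n) (Fin n) ℚ)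
  (c : Option ℕ → Fin n → ℝ) (δ : ℝ), 1 ≤ n → (∀ p ∈ S, p.Prime) →
  (∀ v ∈ plc S, (A v).det ≠ 0) → ∑ v ∈ plc S, ∑ i, c v i ≤ 0 → 0 < δ →
  ∃ (θ ρ : ℝ) (m : ℕ), 0 < θ ∧ 0 < ρ ∧ 1 ≤ m ∧ ∀ K : ℝ, 1 ≤ K → ∃ C : ℝ, 1 ≤ C ∧
  ∀ (r : Fin m → ℕ) (Q : Fin m → ℝ) (L : ℝ), (∀ h, 1 ≤ r h) → 0 < L →
    (∀ h, C ≤ Q h ∧ L ≤ r h * Real.log (Q h) ∧ r h * Real.log (Q h) ≤ (1 + ρ) * L) →
    ∃ P : MvPolynomial (Fin m × Fin n) ℤ, P ≠ 0 ∧ MH r P ∧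
      (∀ J, |((P.coeff J : ℤ) : ℝ)| ≤ C ^ (∑ h, r h)) ∧
      ∀ J0 : Fin m × Fin n →₀ ℕ, ∑ hi : Fin m × Fin n, (J0 hi : ℝ) / r hi.1 ≤ θ →
        ∀ x : Fin m → Fin n → ℤ,
          (∀ v ∈ plc S, ∀ h i, av v ((A v).mulVec (cv (x h)) i)
            ≤ K * Q h ^ (c v i - if v = none then δ else 0)) →
          MvPolynomial.eval (bl x) (hd J0 P) = 0

/-! ## D. From the grid to one variable per block -/

/-- (GRD) a polynomial with many zeros of high order on a grid -/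
def ST_GRD : Prop := ∀ (σ : Type) [Fintype σ] [DecidableEq σ] (F : MvPolynomial σ ℚ) (a : ℕ)
  (t r : σ → ℕ), (∀ s, F.degreeOf s ≤ r s) → (∀ s, r s < a * (t s + 1)) →
  (∀ I : σ →₀ ℕ, (∀ s, I s ≤ t s) → ∀ u : σ → ℕ, (∀ s, u s < a) →
    MvPolynomial.eval (fun s => (u s : ℚ)) (hd I F) = 0) → F = 0

/-- (GRID) vanishing on the product of the hyperplanes -/
def ST_GRID : Prop := ∀ (m k : ℕ) (r : Fin m → ℕ) (P : MvPolynomial (Fin m × Fin (k + 1)) ℤ)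
  (a : ℕ) (θ : ℝ) (g : Fin m → Fin k → Fin (k + 1) → ℤ), (∀ h, 1 ≤ r h) → MH r P → 0 < θ →
  2 * (m : ℝ) * k ≤ a * θ →
  (∀ J0 : Fin m × Fin (k + 1) →₀ ℕ, ∑ hi : Fin m × Fin (k + 1), (J0 hi : ℝ) / r hi.1 ≤ θ →
    ∀ u : Fin m → Fin k → ℕ, (∀ h l, u h l < a) →
      MvPolynomial.eval (bl fun h i => ∑ l, (u h l : ℤ) * g h l i) (hd J0 P) = 0) →
  ∀ J0 : Fin m × Fin (k + 1) →₀ ℕ, ∑ hi : Fin m × Fin (k + 1), (J0 hi : ℝ) / r hi.1 ≤ θ / 2 →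
    ∀ u : Fin m → Fin k → ℚ,
      MvPolynomial.eval (bl fun h i => ∑ l, u h l * (g h l i : ℚ)) (toQ (hd J0 P)) = 0

/-- (RED2) reduction to one variable per block: only derivatives with respect to `x (h, i0 h)` are
needed; take a componentwise minimal exponent of the variables outside `i0, i1` -/
def ST_RED2 : Prop := ∀ (m n : ℕ) (r : Fin m → ℕ) (P : MvPolynomial (Fin m × Fin n) ℤ)
  (l : Fin m → Fin n → ℤ) (i0 i1 : Fin m → Fin n) (θ : ℝ), P ≠ 0 → MH r P →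
  (∀ h, i0 h ≠ i1 h) → (∀ h, l h (i0 h) ≠ 0) →
  (∀ J0 : Fin m × Fin n →₀ ℕ, ∑ hi : Fin m × Fin n, (J0 hi : ℝ) / r hi.1 < θ →
    ∀ x : Fin m → Fin n → ℚ, (∀ h, ∑ i, (l h i : ℚ) * x h i = 0) →
      MvPolynomial.eval (bl x) (toQ (hd J0 P)) = 0) →
  ∃ f : MvPolynomial (Fin m) ℤ, f ≠ 0 ∧ (∀ h, f.degreeOf h ≤ r h) ∧
    (∀ J, f.coeff J ≠ 0 → ∃ J', f.coeff J = P.coeff J') ∧
    ∀ J : Fin m →₀ ℕ, (shf (fun h => -(l h (i1 h) : ℚ) / l h (i0 h)) (toQ f)).coeff J ≠ 0 →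
      θ ≤ ∑ h, (J h : ℝ) / r h

/-- (HGT) two coordinates carry the height -/
def ST_HGT : Prop := ∀ (k : ℕ) (l : Fin (k + 1) → ℤ), 1 ≤ k → Prim l →
  ∃ i0 i1 : Fin (k + 1), i0 ≠ i1 ∧ l i0 ≠ 0 ∧ (∀ i, |l i| ≤ |l i0|) ∧
    |l i0| ≤ (|l i0| / (Int.gcd (l i0) (l i1) : ℤ)) ^ k

/-- (RM) the Roth machine: there is no sequence of integral hyperplanes `l j` of growing height
which contain `k` independent small vectors (here `n = k + 1`) -/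
def ST_RM : Prop := ∀ (k : ℕ) (S : Finset ℕ) (A : Option ℕ → Matrix (Fin (k + 1)) (Fin (k + 1)) ℚ)
  (c : Option ℕ → Fin (k + 1) → ℝ) (δ τ : ℝ), 1 ≤ k → (∀ p ∈ S, p.Prime) →
  (∀ v ∈ plc S, (A v).det ≠ 0) → ∑ v ∈ plc S, ∑ i, c v i ≤ 0 → 0 < δ → 0 < τ →
  ∀ (M : Set ℕ) (Q : ℕ → ℝ) (g : ℕ → Fin k → Fin (k + 1) → ℤ) (l : ℕ → Fin (k + 1) → ℤ),
    M.Infinite → Filter.Tendsto Q Filter.atTop Filter.atTop →
    (∀ j ∈ M, LinearIndependent ℚ (fun a => cv (g j a)) ∧ Prim (l j) ∧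
      (∀ a, ∑ i, l j i * g j a i = 0) ∧
      (∀ v ∈ plc S, ∀ a i, av v ((A v).mulVec (cv (g j a)) i)
        ≤ Q j ^ (c v i - if v = none then δ else 0)) ∧
      ∃ i, Q j ^ τ ≤ |(l j i : ℝ)|) → False

end Pool.Agent.Helper70.SUB
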