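import Pool.Agent.Helper15.SUB.AV
import Pool.Agent.Helper15.SUB.LATP
import Pool.Agent.Helper15.SUB.BAS
import Pool.Agent.Helper2.SUB.HERM
import Pool.Agent.Helper2.SUB.REDB
import Pool.Agent.Helper2.SUB.UNI
import Pool.Agent.Helper2.SUB.QUO
import Pool.Agent.Helper26.SUB.HLOW
import Pool.Agent.Helper26.SUB.SPAN
import Pool.Agent.Helper27.SUB.RM
import Pool.Agent.Helper27.SUB.THG
import Pool.Agent.Helper28.SUB.COEF
import Pool.Agent.Helper28.SUB.CPT
import Pool.Agent.Helper28.SUB.VOL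
import Pool.Agent.Helper45.SUB.DAV
import Pool.Agent.Helper45.SUB.PAR
import Pool.Agent.Helper45.SUB.PARH
import Pool.Agent.Helper47.SUB.CHEB
import Pool.Agent.Helper47.SUB.HD
import Pool.Agent.Helper47.SUB.L1
import Pool.Agent.Helper47.SUB.NDG
import Pool.Agent.Helper60.SUB.SUBT
import Pool.Agent.Helper60.SUB.SUBY
import Pool.Agent.Helper66.SUB.LAUB
import Pool.Agent.Helper66.SUB.CORE
import Pool.Agent.Helper17.SUB.T1A
import Pool.Agent.Helper94.SUB.T1B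
import Pool.Agent.Helper78.SUB.T1C
import Pool.Agent.Helper27.SUB.T2
import Pool.Agent.Helper69.SUB.SIEG
import Pool.Agent.Helper71.SUB.ROTH
import Pool.Agent.Helper72.SUB.CBR
import Pool.Agent.Helper72.SUB.EXTR
import Pool.Agent.Helper72.SUB.GRID
import Pool.Agent.Helper72.SUB.PLK
import Pool.Agent.Helper77.SUB.EVAL
import Pool.Agent.Helper77.SUB.HGT
import Pool.Agent.Helper77.SUB.VAN
import Pool.Agent.Helper78.SUB.CLEAN
import Pool.Agent.Helper78.SUB.LAU2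
import Pool.Agent.Helper8.SUB.MONO
import Pool.Agent.Helper8.SUB.U2
import Pool.Agent.Helper89.SUB.Rel
import Pool.Agent.Helper9.SUB.GRD
import Pool.Agent.Helper9.SUB.RED2
import Pool.Agent.Helper93.SUB.DSUP
import Pool.Agent.Helper93.SUB.LSB
import Pool.Agent.Helper97.SUB.BOX
import Pool.Agent.Helper99.SUB.GAPX
import Pool.Agent.Helper99.SUB.LAU1

set_option autoImplicit false

/-! Assembly: the p-adic Subspace theorem over `ℚ` with rational linear forms. -/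

namespace Pool.Agent.Helper70.SUB

theorem av_ : ST_AV := Pool.Agent.Helper15.SUB.AV
theorem hd_ : ST_HD := Pool.Agent.Helper47.SUB.HD
theorem l1_ : ST_L1 := Pool.Agent.Helper47.SUB.L1
theorem roth_ : ST_ROTH := Pool.Agent.Helper71.SUB.ROTH
theorem lsb_ : ST_LSB := Pool.Agent.Helper93.SUB.LSB l1_
theorem sieg_ : ST_SIEG := Pool.Agent.Helper69.SUB.SIEG l1_ Pool.Agent.Helper47.SUB.CHEB
  Pool.Agent.Helper47.SUB.MEAN lsb_
theorem dsup_ : ST_DSUP := Pool.Agent.Helper93.SUB.DSUP hd_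
theorem eval_ : ST_EVAL := Pool.Agent.Helper77.SUB.EVAL av_ lsb_
theorem van_ : ST_VAN := Pool.Agent.Helper77.SUB.VAN av_ hd_ l1_ lsb_ sieg_ dsup_ eval_
theorem grd_ : ST_GRD := Pool.Agent.Helper9.SUB.st_GRD hd_
theorem grid_ : ST_GRID := Pool.Agent.Helper72.SUB.GRID hd_ grd_
theorem red2_ : ST_RED2 := Pool.Agent.Helper9.SUB.st_RED2 hd_
theorem rm_ : ST_RM := Pool.Agent.Helper27.SUB.RM av_ roth_ van_ grid_ red2_
  Pool.Agent.Helper77.SUB.HGT
theorem redb_ : ST_REDB := Pool.Agent.Helper2.SUB.REDB Pool.Agent.Helper2.SUB.HERM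
theorem bas_ : ST_BAS := Pool.Agent.Helper15.SUB.BAS av_ (Pool.Agent.Helper15.SUB.LATP av_) redb_
theorem vol_ : ST_VOL := Pool.Agent.Helper28.SUB.VOL av_
theorem coef_ : ST_COEF := Pool.Agent.Helper28.SUB.COEF
theorem dav_ : ST_DAV := Pool.Agent.Helper45.SUB.DAV
theorem uni_ : ST_UNI := Pool.Agent.Helper2.SUB.UNI
theorem quo_ : ST_QUO := Pool.Agent.Helper2.SUB.QUO av_ uni_
theorem span_ : ST_SPAN := Pool.Agent.Helper26.SUB.SPAN av_ coef_
theorem hlow_ : ST_HLOW := Pool.Agent.Helper26.SUB.HLOW av_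
theorem box_ : ST_BOX := Pool.Agent.Helper97.SUB.BOX av_ vol_ dav_
theorem ndg_ : ST_NDG := Pool.Agent.Helper47.SUB.NDG bas_ vol_ span_ hlow_ box_
  Pool.Agent.Helper28.SUB.CPT rm_
theorem thg_ : ST_THG := Pool.Agent.Helper27.SUB.THG ndg_ quo_
theorem cb_ : ST_CB := Pool.Agent.Helper72.SUB.CB av_
theorem par_ : ST_PAR := Pool.Agent.Helper45.SUB.PAR bas_ vol_ coef_ Pool.Agent.Helper99.SUB.GAPX
  (Pool.Agent.Helper45.SUB.PARH av_ cb_) Pool.Agent.Helper72.SUB.PLK thg_ cb_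
theorem subt_ : ST_SUBT := Pool.Agent.Helper60.SUB.SUBT av_ Pool.Agent.Helper28.SUB.CPT par_
theorem rel_ : ST_REL := Pool.Agent.Helper89.SUB.st_REL av_ subt_
theorem u2_ : ST_U2 := Pool.Agent.Helper8.SUB.U2 subt_ rel_ av_
theorem mono_ : ST_MONO := Pool.Agent.Helper8.SUB.MONO uni_
theorem laub_ : ST_LAUB := Pool.Agent.Helper66.SUB.LAUB
theorem lau1_ : ST_LAU1 := Pool.Agent.Helper99.SUB.LAU1 laub_
theorem lau2_ : ST_LAU2 := Pool.Agent.Helper78.SUB.LAU2 av_ u2_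
theorem num_ : ST_NUM := Pool.Agent.Helper78.SUB.NUM av_
theorem clean_ : ST_CLEAN := Pool.Agent.Helper78.SUB.CLEAN u2_
theorem suby_ : ST_SUBY := Pool.Agent.Helper60.SUB.SUBY subt_ rel_ av_ laub_
theorem core_ : ST_CORE := Pool.Agent.Helper66.SUB.CORE av_ lau1_ lau2_ num_
theorem t1a_ : ST_T1A := Pool.Agent.Helper17.SUB.T1A clean_ mono_ core_
  Pool.Agent.Helper72.SUB.EXTR laub_
theorem t1b_ : ST_T1B := Pool.Agent.Helper94.SUB.T1B mono_ suby_ core_
  Pool.Agent.Helper72.SUB.EXTR Pool.Agent.Helper72.SUB.BINX laub_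
theorem t1c_ : ST_T1C := Pool.Agent.Helper78.SUB.T1C mono_ laub_ suby_ core_
  Pool.Agent.Helper72.SUB.EXTR Pool.Agent.Helper72.SUB.BINX
theorem t2_ : ST_T2 := Pool.Agent.Helper27.SUB.T2 u2_

end Pool.Agent.Helper70.SUB
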