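import Pool.Agent.Helper70.SUB.SheetL

/-!
Project SUBW (helper70): sums of S-units with slowly growing coefficients. Everything is formulated
along an ultrafilter `φ` on `ℕ` and with respect to a scale `X : ℕ → ℝ` which tends to infinity
along `φ`.
-/

set_option autoImplicit false

namespace Pool.Agent.Helper70.SUBW

open Filter Finset Matrix Pool.Agent.Helper70.SUB Pool.Agent.Helper77.SUBK Pool.Agent.Helper70.SUBL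

/-! ## Definitions -/

/-- slow sequences: the height is smaller than every positive power of `X` -/
def Slw {M : Type} [Field M] [NumberField M] {S : Finset ℕ} (P : PF S M) (φ : Ultrafilter ℕ)
    (X : ℕ → ℝ) (z : ℕ → M) : Prop :=
  ∀ ε : ℝ, 0 < ε → ∀ᶠ j in (φ : Filter ℕ), ∃ D : ℕ, D ≠ 0 ∧ (D : ℝ) ≤ X j ^ ε ∧
    IsIntegral ℤ ((D : M) * z j) ∧ ∀ σ : M ≃ₐ[ℚ] M, P.nv none (σ (z j)) ≤ X j ^ ε

/-- moderate sequences of `S`-units: the height is smaller than some power of `X` -/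
def MU {M : Type} [Field M] [NumberField M] {S : Finset ℕ} (P : PF S M) (φ : Ultrafilter ℕ)
    (X : ℕ → ℝ) (u : ℕ → M) : Prop :=
  (∀ᶠ j in (φ : Filter ℕ), SV S (u j)) ∧
    ∃ A : ℝ, 0 < A ∧ ∀ᶠ j in (φ : Filter ℕ), HB P (X j ^ A) (u j)

/-- sums of boundedly many `S`-units with slow coefficients -/
def Spa {M : Type} [Field M] [NumberField M] {S : Finset ℕ} (P : PF S M) (φ : Ultrafilter ℕ)
    (X : ℕ → ℝ) (z : ℕ → M) : Prop :=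
  ∃ (t : ℕ) (c u : Fin t → ℕ → M), (∀ i, Slw P φ X (c i)) ∧
    (∀ i, ∀ᶠ j in (φ : Filter ℕ), SV S (u i j)) ∧ ∀ᶠ j in (φ : Filter ℕ), ∑ i, c i j * u i j = z j

/-- sums of boundedly many moderate `S`-units with slow coefficients -/
def SpM {M : Type} [Field M] [NumberField M] {S : Finset ℕ} (P : PF S M) (φ : Ultrafilter ℕ)
    (X : ℕ → ℝ) (z : ℕ → M) : Prop :=
  ∃ (t : ℕ) (c u : Fin t → ℕ → M), (∀ i, Slw P φ X (c i)) ∧ (∀ i, MU P φ X (u i)) ∧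
    ∀ᶠ j in (φ : Filter ℕ), ∑ i, c i j * u i j = z j

/-- no nontrivial monomial in the sequences `w k` is slow -/
def IndW {M : Type} [Field M] [NumberField M] {S : Finset ℕ} (P : PF S M) (φ : Ultrafilter ℕ)
    (X : ℕ → ℝ) {r : ℕ} (w : Fin r → ℕ → M) : Prop :=
  ∀ l : Fin r → ℤ, l ≠ 0 → ¬ Slw P φ X (fun j => monM (fun k => w k j) l)

/-- the ultrapower of `M`, a field -/
abbrev UP (M : Type) (φ : Ultrafilter ℕ) : Type := Germ (φ : Filter ℕ) M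

/-- the class of a sequence -/
def gm {M : Type} (φ : Ultrafilter ℕ) (z : ℕ → M) : UP M φ := (z : Germ (φ : Filter ℕ) M)

/-- classes of slow sequences -/
def SlG {M : Type} [Field M] [NumberField M] {S : Finset ℕ} (P : PF S M) (φ : Ultrafilter ℕ)
    (X : ℕ → ℝ) (g : UP M φ) : Prop :=
  ∃ z : ℕ → M, Slw P φ X z ∧ gm φ z = g

/-- Laurent polynomials over the ultrapower with slow coefficients -/
def SlL {M : Type} [Field M] [NumberField M] {S : Finset ℕ} (P : PF S M) (φ : Ultrafilter ℕ)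
    (X : ℕ → ℝ) {r : ℕ} (F : LauM (UP M φ) r) : Prop :=
  ∀ m : Fin r → ℤ, SlG P φ X (F.coeff m)

/-- evaluation of a Laurent polynomial over the ultrapower at sequences of elements of `M` -/
noncomputable def evW {M : Type} [Field M] {φ : Ultrafilter ℕ} {r : ℕ} (w : Fin r → ℕ → M)
    (F : LauM (UP M φ) r) : UP M φ :=
  evM (fun k => gm φ (w k)) F

/-! ## Slow sequences -/

/-- (SLW) closure properties and sizes of slow sequences -/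
def ST_SLW : Prop := ∀ (M : Type) [Field M] [NumberField M] [IsGalois ℚ M] (S : Finset ℕ)
  (P : PF S M) (φ : Ultrafilter ℕ) (X : ℕ → ℝ), (∀ p ∈ S, p.Prime) →
  Tendsto X (φ : Filter ℕ) atTop →
  (∀ c : M, Slw P φ X (fun _ => c)) ∧
  (∀ z z' : ℕ → M, Slw P φ X z → Slw P φ X z' →
    Slw P φ X (fun j => z j + z' j) ∧ Slw P φ X (fun j => z j * z' j)) ∧
  (∀ z : ℕ → M, Slw P φ X z → Slw P φ X (fun j => (z j)⁻¹)) ∧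
  (∀ (z : ℕ → M) (σ : M ≃ₐ[ℚ] M), Slw P φ X z → Slw P φ X (fun j => σ (z j))) ∧
  (∀ z : ℕ → M, Slw P φ X z → ∀ v ∈ plc S, ∀ (σ : M ≃ₐ[ℚ] M) (ε : ℝ), 0 < ε →
    ∀ᶠ j in (φ : Filter ℕ), P.nv v (σ (z j)) ≤ X j ^ ε) ∧
  (∀ z : ℕ → M, Slw P φ X z → (∀ᶠ j in (φ : Filter ℕ), z j ≠ 0) → ∀ v ∈ plc S,
    ∀ (σ : M ≃ₐ[ℚ] M) (ε : ℝ), 0 < ε →
    ∀ᶠ j in (φ : Filter ℕ), X j ^ (-ε) ≤ P.nv v (σ (z j))) ∧
  (∀ z z' : ℕ → M, (∀ᶠ j in (φ : Filter ℕ), z j = z' j) → Slw P φ X z → Slw P φ X z') ∧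
  (∀ (z : ℕ → M) (n : ℕ), n ≠ 0 → Slw P φ X (fun j => z j ^ n) → Slw P φ X z) ∧
  (∀ u : ℕ → M, (∀ᶠ j in (φ : Filter ℕ), SV S (u j)) →
    (∀ v ∈ plc S, ∀ (σ : M ≃ₐ[ℚ] M) (ε : ℝ), 0 < ε →
      ∀ᶠ j in (φ : Filter ℕ), P.nv v (σ (u j)) ≤ X j ^ ε) → Slw P φ X u) ∧
  (∀ c : ℕ → ℤ, (∀ ε : ℝ, 0 < ε → ∀ᶠ j in (φ : Filter ℕ), |(c j : ℝ)| ≤ X j ^ ε) →
    Slw P φ X (fun j => (c j : M))) ∧
  (∀ (ι : Type) (s : Finset ι) (f : ι → ℕ → M), (∀ i ∈ s, Slw P φ X (f i)) →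
    Slw P φ X (fun j => ∑ i ∈ s, f i j) ∧ Slw P φ X (fun j => ∏ i ∈ s, f i j)) ∧
  (∀ (ι : Type) (s : Finset ι) (f : ι → ℕ → M), (∀ i ∈ s, Slw P φ X (f i)) →
    ∀ ε : ℝ, 0 < ε → ∀ᶠ j in (φ : Filter ℕ), ∃ D : ℕ, D ≠ 0 ∧ (D : ℝ) ≤ X j ^ ε ∧
      ∀ i ∈ s, IsIntegral ℤ ((D : M) * f i j)) ∧
  (∀ (X' : ℕ → ℝ) (A : ℝ), 0 < A → Tendsto X' (φ : Filter ℕ) atTop →
    (∀ᶠ j in (φ : Filter ℕ), X j ≤ X' j ^ A) →
    (∀ z : ℕ → M, Slw P φ X z → Slw P φ X' z) ∧ (∀ u : ℕ → M, MU P φ X u → MU P φ X' u))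

/-- (SPW) closure properties of moderate S-units and of their sums with slow coefficients -/
def ST_SPW : Prop := ∀ (M : Type) [Field M] [NumberField M] [IsGalois ℚ M] (S : Finset ℕ)
  (P : PF S M) (φ : Ultrafilter ℕ) (X : ℕ → ℝ), (∀ p ∈ S, p.Prime) →
  Tendsto X (φ : Filter ℕ) atTop →
  (∀ u u' : ℕ → M, MU P φ X u → MU P φ X u' → MU P φ X (fun j => u j * u' j)) ∧
  (∀ u : ℕ → M, MU P φ X u → MU P φ X (fun j => (u j)⁻¹)) ∧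
  (∀ (u : ℕ → M) (σ : M ≃ₐ[ℚ] M), MU P φ X u → MU P φ X (fun j => σ (u j))) ∧
  (∀ (u : ℕ → M) (n : ℕ), n ≠ 0 → (∀ᶠ j in (φ : Filter ℕ), SV S (u j)) →
    MU P φ X (fun j => u j ^ n) → MU P φ X u) ∧
  (∀ (r : ℕ) (w : Fin r → ℕ → M) (m : Fin r → ℤ), (∀ k, MU P φ X (w k)) →
    MU P φ X (fun j => monM (fun k => w k j) m)) ∧
  (∀ z : ℕ → M, Slw P φ X z → SpM P φ X z) ∧ (∀ u : ℕ → M, MU P φ X u → SpM P φ X u) ∧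
  (∀ z z' : ℕ → M, SpM P φ X z → SpM P φ X z' →
    SpM P φ X (fun j => z j + z' j) ∧ SpM P φ X (fun j => z j * z' j)) ∧
  (∀ (z : ℕ → M) (n : ℕ), SpM P φ X z → SpM P φ X (fun j => z j ^ n)) ∧
  (∀ (n : ℕ) (f : Fin n → ℕ → M), (∀ i, SpM P φ X (f i)) → SpM P φ X (fun j => ∑ i, f i j)) ∧
  (∀ z : ℕ → M, SpM P φ X z → Spa P φ X z) ∧
  (∀ z z' : ℕ → M, (∀ᶠ j in (φ : Filter ℕ), z j = z' j) →
    (SpM P φ X z → SpM P φ X z') ∧ (Spa P φ X z → Spa P φ X z')) ∧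
  (∀ (ι : Type) [Fintype ι] (c u : ι → ℕ → M), (∀ i, Slw P φ X (c i)) →
    (∀ i, ∀ᶠ j in (φ : Filter ℕ), SV S (u i j)) → Spa P φ X (fun j => ∑ i, c i j * u i j))

/-! ## The Subspace theorem along an ultrafilter -/

/-- (SUBTU) the Subspace theorem over `M` along an ultrafilter -/
def ST_SUBTU : Prop := ∀ (M : Type) [Field M] [NumberField M] [IsGalois ℚ M] (S : Finset ℕ)
  (P : PF S M) (ι : Type) [Fintype ι] [DecidableEq ι]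
  (L : Option ℕ → (M ≃ₐ[ℚ] M) → Matrix ι ι M) (ε A : ℝ) (φ : Ultrafilter ℕ) (Q : ℕ → ℝ)
  (y : ℕ → ι → M), Nonempty ι → (∀ p ∈ S, p.Prime) →
  (∀ v ∈ plc S, ∀ σ, (L v σ).det ≠ 0) →
  (∀ v ∈ plc S, ∀ σ σ' : M ≃ₐ[ℚ] M, (∀ x, P.nv v (σ x) = P.nv v (σ' x)) → L v σ = L v σ') →
  0 < ε → Tendsto Q (φ : Filter ℕ) atTop →
  (∀ ε' : ℝ, 0 < ε' → ∀ᶠ j in (φ : Filter ℕ), ∃ D : ℕ, D ≠ 0 ∧ (D : ℝ) ≤ Q j ^ ε' ∧
    ∀ i, SI S ((D : M) * y j i)) →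
  (∀ᶠ j in (φ : Filter ℕ), ∀ v ∈ plc S, ∀ (σ : M ≃ₐ[ℚ] M) (i : ι), P.nv v (σ (y j i)) ≤ Q j ^ A) →
  (∀ᶠ j in (φ : Filter ℕ),
    ∏ v ∈ plc S, ∏ σ : M ≃ₐ[ℚ] M, ∏ i, P.nv v (σ ((L v σ).mulVec (y j) i)) ≤ Q j ^ (-ε)) →
  ∃ a : ι → M, a ≠ 0 ∧ ∀ᶠ j in (φ : Filter ℕ), ∑ i, a i * y j i = 0

/-- (CSTW) a small value of a sum at one place gives a relation with constant coefficients -/
def ST_CSTW : Prop := ∀ (M : Type) [Field M] [NumberField M] [IsGalois ℚ M] (S : Finset ℕ)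
  (P : PF S M) (φ : Ultrafilter ℕ) (X : ℕ → ℝ) (ι : Type) [Fintype ι] [DecidableEq ι]
  (c u : ι → ℕ → M) (η : ℝ) (v : Option ℕ) (σ : M ≃ₐ[ℚ] M) (i₀ : ι), (∀ p ∈ S, p.Prime) →
  Tendsto X (φ : Filter ℕ) atTop → (∀ i, Slw P φ X (c i)) →
  (∀ i, ∀ᶠ j in (φ : Filter ℕ), c i j ≠ 0) → (∀ i, MU P φ X (u i)) → v ∈ plc S → 0 < η →
  (∀ᶠ j in (φ : Filter ℕ),
    P.nv v (σ (∑ i, c i j * u i j)) ≤ P.nv v (σ (u i₀ j)) * X j ^ (-η)) →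
  ∃ a : ι → M, a ≠ 0 ∧ ∀ᶠ j in (φ : Filter ℕ), ∑ i, a i * (c i j * u i j) = 0

/-- (RELW) in a vanishing sum of moderate S-units with slow coefficients some ratio is slow -/
def ST_RELW : Prop := ∀ (M : Type) [Field M] [NumberField M] [IsGalois ℚ M] (S : Finset ℕ)
  (P : PF S M) (φ : Ultrafilter ℕ) (X : ℕ → ℝ) (ι : Type) [Fintype ι] [DecidableEq ι]
  (c u : ι → ℕ → M), (∀ p ∈ S, p.Prime) → Nonempty ι →
  Tendsto X (φ : Filter ℕ) atTop → (∀ i, Slw P φ X (c i)) →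
  (∀ i, ∀ᶠ j in (φ : Filter ℕ), c i j ≠ 0) → (∀ i, MU P φ X (u i)) →
  (∀ᶠ j in (φ : Filter ℕ), ∑ i, c i j * u i j = 0) →
  ∃ i i' : ι, i ≠ i' ∧ Slw P φ X (fun j => u i j / u i' j)

/-- (U2W) lower bound for sums of moderate S-units with slow coefficients -/
def ST_U2W : Prop := ∀ (M : Type) [Field M] [NumberField M] [IsGalois ℚ M] (S : Finset ℕ)
  (P : PF S M) (φ : Ultrafilter ℕ) (X : ℕ → ℝ) (ι : Type) [Fintype ι] [DecidableEq ι]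
  (c u : ι → ℕ → M) (v : Option ℕ) (σ : M ≃ₐ[ℚ] M) (i : ι) (ε : ℝ), (∀ p ∈ S, p.Prime) →
  Tendsto X (φ : Filter ℕ) atTop → (∀ i, Slw P φ X (c i)) →
  (∀ i, ∀ᶠ j in (φ : Filter ℕ), c i j ≠ 0) → (∀ i, MU P φ X (u i)) →
  (∀ i i' : ι, i ≠ i' → ¬ Slw P φ X (fun j => u i j / u i' j)) → v ∈ plc S → 0 < ε →
  ∀ᶠ j in (φ : Filter ℕ),
    P.nv v (σ (u i j)) * X j ^ (-ε) ≤ P.nv v (σ (∑ i, c i j * u i j))

/-- (MODW) if the sum is an integer of polynomial size and the terms are linearly independent over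
the constants, then the terms are moderate -/
def ST_MODW : Prop := ∀ (M : Type) [Field M] [NumberField M] [IsGalois ℚ M] (S : Finset ℕ)
  (P : PF S M) (φ : Ultrafilter ℕ) (X : ℕ → ℝ) (ι : Type) [Fintype ι] [DecidableEq ι]
  (c u : ι → ℕ → M) (x : ℕ → ℤ) (B : ℝ), (∀ p ∈ S, p.Prime) →
  Tendsto X (φ : Filter ℕ) atTop → (∀ i, Slw P φ X (c i)) →
  (∀ i, ∀ᶠ j in (φ : Filter ℕ), c i j ≠ 0) → (∀ i, ∀ᶠ j in (φ : Filter ℕ), SV S (u i j)) →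
  (∀ᶠ j in (φ : Filter ℕ), ∑ i, c i j * u i j = (x j : M) ∧ |(x j : ℝ)| ≤ X j ^ B) →
  (∀ a : ι → M, a ≠ 0 → ¬ ∀ᶠ j in (φ : Filter ℕ), ∑ i, a i * (c i j * u i j) = 0) →
  ∀ i, MU P φ X (u i)

/-- (HBW) an integer of polynomial size which is a sum of S-units with slow coefficients is a
sum of moderate S-units with slow coefficients -/
def ST_HBW : Prop := ∀ (M : Type) [Field M] [NumberField M] [IsGalois ℚ M] (S : Finset ℕ)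
  (P : PF S M) (φ : Ultrafilter ℕ) (X : ℕ → ℝ) (x : ℕ → ℤ) (B : ℝ), (∀ p ∈ S, p.Prime) →
  Tendsto X (φ : Filter ℕ) atTop → Spa P φ X (fun j => (x j : M)) →
  (∀ᶠ j in (φ : Filter ℕ), |(x j : ℝ)| ≤ X j ^ B) → SpM P φ X (fun j => (x j : M))

/-- (DOMW) the same with a dominant term `w ^ n`, the scale is `|x|` -/
def ST_DOMW : Prop := ∀ (M : Type) [Field M] [NumberField M] [IsGalois ℚ M] (S : Finset ℕ)
  (P : PF S M) (φ : Ultrafilter ℕ) (n t : ℕ) (δ : ℝ) (w : ℕ → M) (c a : Fin t → ℕ → M)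
  (x : ℕ → ℤ), (∀ p ∈ S, p.Prime) → 1 ≤ n → 0 < δ → δ < n →
  Tendsto (fun j => |(x j : ℝ)|) (φ : Filter ℕ) atTop →
  (∀ᶠ j in (φ : Filter ℕ), SV S (w j)) → (∀ i, ∀ᶠ j in (φ : Filter ℕ), SV S (a i j)) →
  (∀ i, Slw P φ (fun j => |(x j : ℝ)|) (c i)) →
  (∀ i, ∀ᶠ j in (φ : Filter ℕ), P.nv none (c i j * a i j) ≤ P.nv none (w j) ^ ((n : ℝ) - δ)) →
  (∀ᶠ j in (φ : Filter ℕ), w j ^ n + ∑ i, c i j * a i j = (x j : M)) →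
  MU P φ (fun j => |(x j : ℝ)|) w ∧ SpM P φ (fun j => |(x j : ℝ)|) (fun j => ∑ i, c i j * a i j)

/-- (MONW) moderate S-units are monomials in independent ones, up to slow factors -/
def ST_MONW : Prop := ∀ (M : Type) [Field M] [NumberField M] [IsGalois ℚ M] (S : Finset ℕ)
  (P : PF S M) (φ : Ultrafilter ℕ) (X : ℕ → ℝ) (ι : Type) [Fintype ι] (u : ι → ℕ → M),
  (∀ p ∈ S, p.Prime) → Tendsto X (φ : Filter ℕ) atTop → (∀ i, MU P φ X (u i)) →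
  ∃ (r : ℕ) (w : Fin r → ℕ → M) (m : ι → Fin r → ℤ) (s : ι → ℕ → M),
    (∀ k, MU P φ X (w k)) ∧ IndW P φ X w ∧ (∀ i, Slw P φ X (s i)) ∧
    ∀ i, ∀ᶠ j in (φ : Filter ℕ), u i j = s i j * monM (fun k => w k j) (m i)

/-! ## Laurent polynomials with slow coefficients -/

/-- (SLL) closure properties of slow classes and of Laurent polynomials with slow coefficients -/
def ST_SLL : Prop := ∀ (M : Type) [Field M] [NumberField M] [IsGalois ℚ M] (S : Finset ℕ)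
  (P : PF S M) (φ : Ultrafilter ℕ) (X : ℕ → ℝ) (r : ℕ), (∀ p ∈ S, p.Prime) →
  Tendsto X (φ : Filter ℕ) atTop → CharZero (UP M φ) ∧
  (∀ c : M, SlG P φ X (gm φ fun _ => c)) ∧
  (∀ g h : UP M φ, SlG P φ X g → SlG P φ X h →
    SlG P φ X (g + h) ∧ SlG P φ X (g * h) ∧ SlG P φ X (g - h) ∧ SlG P φ X (g / h)) ∧
  (∀ k : ℤ, SlG P φ X (k : UP M φ)) ∧
  (∀ (z : ℕ → M) (g : UP M φ), SlG P φ X g → gm φ z = g → Slw P φ X z) ∧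
  (∀ F G : LauM (UP M φ) r, SlL P φ X F → SlL P φ X G →
    SlL P φ X (F + G) ∧ SlL P φ X (F - G) ∧ SlL P φ X (F * G)) ∧
  (∀ (F : LauM (UP M φ) r) (δ : Fin r → ℤ), SlL P φ X F → SlL P φ X (drM δ F)) ∧
  (∀ (F : LauM (UP M φ) r) (k : ℕ), SlL P φ X F → SlL P φ X (F ^ k)) ∧
  (∀ (m : Fin r → ℤ) (g : UP M φ), SlG P φ X g → SlL P φ X (AddMonoidAlgebra.single m g))

/-- (LAUW) size of the terms of a Laurent polynomial with slow coefficients -/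
def ST_LAUW : Prop := ∀ (M : Type) [Field M] [NumberField M] [IsGalois ℚ M] (S : Finset ℕ)
  (P : PF S M) (φ : Ultrafilter ℕ) (X : ℕ → ℝ) (r : ℕ) (w : Fin r → ℕ → M)
  (F : LauM (UP M φ) r) (f : ℕ → M) (v : Option ℕ) (σ : M ≃ₐ[ℚ] M) (ε : ℝ),
  (∀ p ∈ S, p.Prime) → Tendsto X (φ : Filter ℕ) atTop → (∀ k, MU P φ X (w k)) →
  IndW P φ X w → SlL P φ X F → gm φ f = evW w F → v ∈ plc S → 0 < ε →
  ∀ m ∈ Finsupp.support F.coeff, ∀ᶠ j in (φ : Filter ℕ),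
    P.nv v (σ (monM (fun k => w k j) m)) * X j ^ (-ε) ≤ P.nv v (σ (f j))

/-- (DRVW) the derivative is not larger than the Laurent polynomial -/
def ST_DRVW : Prop := ∀ (M : Type) [Field M] [NumberField M] [IsGalois ℚ M] (S : Finset ℕ)
  (P : PF S M) (φ : Ultrafilter ℕ) (X : ℕ → ℝ) (r : ℕ) (w : Fin r → ℕ → M)
  (F : LauM (UP M φ) r) (f f' : ℕ → M) (δ : Fin r → ℤ) (v : Option ℕ) (σ : M ≃ₐ[ℚ] M) (a : ℝ),
  (∀ p ∈ S, p.Prime) → Tendsto X (φ : Filter ℕ) atTop → (∀ k, MU P φ X (w k)) →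
  IndW P φ X w → SlL P φ X F → gm φ f = evW w F → gm φ f' = evW w (drM δ F) → v ∈ plc S →
  (∀ ε : ℝ, 0 < ε → ∀ᶠ j in (φ : Filter ℕ), P.nv v (σ (f j)) ≤ X j ^ (a + ε)) →
  ∀ ε : ℝ, 0 < ε → ∀ᶠ j in (φ : Filter ℕ), P.nv v (σ (f' j)) ≤ X j ^ (a + ε)

/-- (NUMW) product formula for nonzero values of Laurent polynomials with slow coefficients -/
def ST_NUMW : Prop := ∀ (M : Type) [Field M] [NumberField M] [IsGalois ℚ M] (S : Finset ℕ)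
  (P : PF S M) (φ : Ultrafilter ℕ) (X : ℕ → ℝ) (r : ℕ) (w : Fin r → ℕ → M)
  (F : LauM (UP M φ) r) (f : ℕ → M) (ε : ℝ),
  (∀ p ∈ S, p.Prime) → Tendsto X (φ : Filter ℕ) atTop → (∀ k, MU P φ X (w k)) →
  SlL P φ X F → gm φ f = evW w F → (∀ᶠ j in (φ : Filter ℕ), f j ≠ 0) → 0 < ε →
  ∀ᶠ j in (φ : Filter ℕ), X j ^ (-ε) ≤ ∏ v ∈ plc S, ∏ σ : M ≃ₐ[ℚ] M, P.nv v (σ (f j))

/-! ## The application -/

/-- (COREW) the heart of the application -/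
def ST_COREW : Prop := ∀ (M : Type) [Field M] [NumberField M] [IsGalois ℚ M] (S : Finset ℕ)
  (P : PF S M) (φ : Ultrafilter ℕ) (r : ℕ) (w : Fin r → ℕ → M) (F G : LauM (UP M φ) r)
  (x y : ℕ → ℤ) (ε : ℝ), (∀ p ∈ S, p.Prime) → 0 < ε →
  Tendsto (fun j => |(x j : ℝ)|) (φ : Filter ℕ) atTop →
  (∀ k, MU P φ (fun j => |(x j : ℝ)|) (w k)) → IndW P φ (fun j => |(x j : ℝ)|) w →
  SlL P φ (fun j => |(x j : ℝ)|) F → SlL P φ (fun j => |(x j : ℝ)|) G →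
  gm φ (fun j => (x j : M)) = evW w F → gm φ (fun j => (y j : M)) = evW w G →
  (∀ᶠ j in (φ : Filter ℕ), y j ^ 2 ≠ x j ^ 3 ∧
    |((y j ^ 2 - x j ^ 3 : ℤ) : ℝ)| ≤ |(x j : ℝ)| ^ (1 / (2 + ε))) → False

/-- (MAINW) the same for sums of S-units with slow coefficients -/
def ST_MAINW : Prop := ∀ (M : Type) [Field M] [NumberField M] [IsGalois ℚ M] (S : Finset ℕ)
  (P : PF S M) (φ : Ultrafilter ℕ) (x y : ℕ → ℤ) (ε : ℝ), (∀ p ∈ S, p.Prime) → 0 < ε →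
  Tendsto (fun j => |(x j : ℝ)|) (φ : Filter ℕ) atTop →
  Spa P φ (fun j => |(x j : ℝ)|) (fun j => (x j : M)) →
  Spa P φ (fun j => |(x j : ℝ)|) (fun j => (y j : M)) →
  (∀ᶠ j in (φ : Filter ℕ), y j ^ 2 ≠ x j ^ 3 ∧
    |((y j ^ 2 - x j ^ 3 : ℤ) : ℝ)| ≤ |(x j : ℝ)| ^ (1 / (2 + ε))) → False

/-- (SUBYW) an integer which is close to a sum of moderate S-units with slow coefficients is such
a sum -/
def ST_SUBYW : Prop := ∀ (M : Type) [Field M] [NumberField M] [IsGalois ℚ M] (S : Finset ℕ)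
  (P : PF S M) (φ : Ultrafilter ℕ) (X : ℕ → ℝ) (y : ℕ → ℤ) (f : ℕ → M) (B η : ℝ),
  (∀ p ∈ S, p.Prime) → Tendsto X (φ : Filter ℕ) atTop → SpM P φ X f → 0 < η →
  (∀ᶠ j in (φ : Filter ℕ), |(y j : ℝ)| ≤ X j ^ B ∧ P.nv none ((y j : M) - f j) ≤ X j ^ (-η)) →
  Spa P φ X (fun j => (y j : M))

/-- (PFE) the distinguished embedding can be prescribed -/
def ST_PFE : Prop := ∀ (M : Type) [Field M] [NumberField M] (S : Finset ℕ) (ψ : M →+* ℂ),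
  (∀ p ∈ S, p.Prime) → ∃ P : PF S M, ∀ z, P.nv none z = ‖ψ z‖

/-- (EXTW) extraction of a bad sequence -/
def ST_EXTW : Prop := ∀ (τ : Type) (Adm : ℝ → τ → Prop) (x d : τ → ℤ) (ε : ℝ), 0 < ε →
  (∀ (κ : ℝ) (b : τ), Adm κ b → d b ≠ 0) →
  (¬ ∃ κ : ℝ, 0 < κ ∧ ∃ C : ℝ, ∀ b : τ, Adm κ b →
    Real.log |(x b : ℝ)| ≤ (2 + ε) * Real.log |(d b : ℝ)| + C) →
  ∃ (s : ℕ → τ) (φ : Ultrafilter ℕ), Tendsto (fun j => |(x (s j) : ℝ)|) (φ : Filter ℕ) atTop ∧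
    (∀ j : ℕ, Adm (1 / ((j : ℝ) + 1)) (s j) ∧ 1 ≤ |(x (s j) : ℝ)| ∧
      |(d (s j) : ℝ)| ≤ |(x (s j) : ℝ)| ^ (1 / (2 + ε))) ∧
    (∀ κ : ℝ, 0 < κ → ∀ᶠ j : ℕ in (φ : Filter ℕ), 1 / ((j : ℝ) + 1) ≤ κ)

/-- (T1W) both integers are sums of S-units with small integral coefficients -/
def ST_T1W : Prop := ∀ (M : Type) [Field M] [NumberField M] [IsGalois ℚ M] (S : Finset ℕ)
  (t : ℕ) (ε : ℝ), (∀ p ∈ S, p.Prime) → 0 < ε →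
  ∃ κ : ℝ, 0 < κ ∧ ∃ C : ℝ, ∀ (c d : Fin t → ℤ) (a b : Fin t → M) (x y : ℤ),
    (∀ i, SV S (a i)) → (∀ i, SV S (b i)) → (∀ i, |(c i : ℝ)| ≤ |(x : ℝ)| ^ κ) →
    (∀ i, |(d i : ℝ)| ≤ |(x : ℝ)| ^ κ) → ∑ i, (c i : M) * a i = (x : M) →
    ∑ i, (d i : M) * b i = (y : M) → y ^ 2 ≠ x ^ 3 →
    Real.log |(x : ℝ)| ≤ (2 + ε) * Real.log |((y ^ 2 - x ^ 3 : ℤ) : ℝ)| + C

/-- (T1BW) `x = w ^ 2 +` smaller terms, `y` an arbitrary integer -/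
def ST_T1BW : Prop := ∀ (M : Type) [Field M] [NumberField M] [IsGalois ℚ M] (S : Finset ℕ)
  (ψ : M →+* ℂ) (t : ℕ) (ε δ : ℝ), (∀ p ∈ S, p.Prime) → 0 < ε → 0 < δ → δ < 2 →
  ∃ κ : ℝ, 0 < κ ∧ ∃ C : ℝ, ∀ (w : M) (c : Fin t → ℤ) (a : Fin t → M) (x y : ℤ),
    SV S w → (∀ i, SV S (a i)) → (∀ i, |(c i : ℝ)| ≤ |(x : ℝ)| ^ κ) →
    (∀ i, ‖ψ ((c i : M) * a i)‖ ≤ ‖ψ w‖ ^ (2 - δ)) → w ^ 2 + ∑ i, (c i : M) * a i = (x : M) →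
    y ^ 2 ≠ x ^ 3 →
    Real.log |(x : ℝ)| ≤ (2 + ε) * Real.log |((y ^ 2 - x ^ 3 : ℤ) : ℝ)| + C

/-- (T1CW) `y = w ^ 3 +` smaller terms, `x` an arbitrary integer; `M` contains the cube roots of
unity -/
def ST_T1CW : Prop := ∀ (M : Type) [Field M] [NumberField M] [IsGalois ℚ M] (S : Finset ℕ)
  (ψ : M →+* ℂ) (ζ : M) (t : ℕ) (ε δ : ℝ), (∀ p ∈ S, p.Prime) → ζ ^ 2 + ζ + 1 = 0 → 0 < ε →
  0 < δ → δ < 3 →
  ∃ κ : ℝ, 0 < κ ∧ ∃ C : ℝ, ∀ (w : M) (c : Fin t → ℤ) (b : Fin t → M) (x y : ℤ),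
    SV S w → (∀ i, SV S (b i)) → (∀ i, |(c i : ℝ)| ≤ |(y : ℝ)| ^ κ) →
    (∀ i, ‖ψ ((c i : M) * b i)‖ ≤ ‖ψ w‖ ^ (3 - δ)) → w ^ 3 + ∑ i, (c i : M) * b i = (y : M) →
    y ^ 2 ≠ x ^ 3 →
    Real.log |(x : ℝ)| ≤ (2 + ε) * Real.log |((y ^ 2 - x ^ 3 : ℤ) : ℝ)| + C

/-- sums of `t` elements of `Γ` with integral coefficients of absolute value at most `B` -/
def WSum (Γ : Subgroup ℂˣ) (t : ℕ) (B : ℝ) (z : ℂ) : Prop :=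
  ∃ (c : Fin t → ℤ) (γ : Fin t → ℂˣ), (∀ i, γ i ∈ Γ) ∧ (∀ i, |(c i : ℝ)| ≤ B) ∧
    z = ∑ i, (c i : ℂ) * (γ i : ℂ)

/-- an element `γ₀` of `Γ` plus a sum as before whose terms are at most `|γ₀| ^ (1 - δ)` -/
def WDom (Γ : Subgroup ℂˣ) (t : ℕ) (δ B : ℝ) (z : ℂ) : Prop :=
  ∃ γ₀ ∈ Γ, ∃ (c : Fin t → ℤ) (γ : Fin t → ℂˣ), (∀ i, γ i ∈ Γ) ∧ (∀ i, |(c i : ℝ)| ≤ B) ∧
    (∀ i, ‖(c i : ℂ) * (γ i : ℂ)‖ ≤ ‖(γ₀ : ℂ)‖ ^ (1 - δ)) ∧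
    z = (γ₀ : ℂ) + ∑ i, (c i : ℂ) * (γ i : ℂ)

/-- (FINW) the final theorem -/
def ST_FINW : Prop := ∀ (Γ : Subgroup ℂˣ) (t : ℕ) (ε δ : ℝ), Γ.FG →
  (∀ γ ∈ Γ, IsAlgebraic ℚ ((γ : ℂˣ) : ℂ)) → 0 < ε → 0 < δ → δ < 1 →
  ∃ κ : ℝ, 0 < κ ∧ ∃ C : ℝ, ∀ x y : ℤ,
    ((WSum Γ t (|(x : ℝ)| ^ κ) (x : ℂ) ∧ WSum Γ t (|(x : ℝ)| ^ κ) (y : ℂ)) ∨
      WDom Γ t δ (|(x : ℝ)| ^ κ) (x : ℂ) ∨ WDom Γ t δ (|(y : ℝ)| ^ κ) (y : ℂ)) →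
    y ^ 2 ≠ x ^ 3 →
    Real.log |(x : ℝ)| ≤ (2 + ε) * Real.log |((y ^ 2 - x ^ 3 : ℤ) : ℝ)| + C

end Pool.Agent.Helper70.SUBW
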