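import Mathlib

/-!
Project SUB: the p-adic Subspace theorem over the rational numbers with rational linear forms.
Shared definitions.
-/

set_option autoImplicit false

namespace Pool.Agent.Helper70.SUB

open Finset

/-- absolute values: `none` is the real place, `some p` the `p`-adic one -/
noncomputable def av : Option ℕ → ℚ → ℝ
  | none, x => |(x : ℝ)|
  | some p, x => ((padicNorm p x : ℚ) : ℝ)

/-- the real place and the places of `S` -/
def plc (S : Finset ℕ) : Finset (Option ℕ) := Finset.insertNone S

/-- an integer vector as a rational vector -/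
def cv {ι : Type} (x : ι → ℤ) : ι → ℚ := fun i => (x i : ℚ)

/-- primitive integer vectors -/
def Prim {ι : Type} (x : ι → ℤ) : Prop := ∀ d : ℤ, (∀ i, d ∣ x i) → IsUnit d

/-- every monomial of `P` has weight at least `θ` -/
def IndGE {σ R : Type} [Fintype σ] [CommSemiring R] (w : σ → ℝ) (θ : ℝ)
    (P : MvPolynomial σ R) : Prop :=
  ∀ J : σ →₀ ℕ, P.coeff J ≠ 0 → θ ≤ ∑ s, w s * (J s : ℝ)

/-- the polynomial `P (X + α)` -/
noncomputable def shf {σ R : Type} [CommRing R] (α : σ → R) :
    MvPolynomial σ R →ₐ[R] MvPolynomial σ R :=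
  MvPolynomial.aeval (fun s => MvPolynomial.X s + MvPolynomial.C (α s))

/-- Hasse derivative: the coefficient of `Y ^ J` in `P (X + Y)` -/
noncomputable def hd {σ R : Type} [CommRing R] (J : σ →₀ ℕ) (P : MvPolynomial σ R) :
    MvPolynomial σ R :=
  MvPolynomial.coeff J (MvPolynomial.aeval
    (fun s => MvPolynomial.X s + MvPolynomial.C (MvPolynomial.X s)) P :
      MvPolynomial σ (MvPolynomial σ R))

/-- the sum of the absolute values of the coefficients -/
def l1 {σ : Type} (P : MvPolynomial σ ℤ) : ℤ := ∑ J ∈ P.support, |P.coeff J|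

/-- rational coefficients -/
noncomputable def toQ {σ : Type} : MvPolynomial σ ℤ →+* MvPolynomial σ ℚ :=
  MvPolynomial.map (Int.castRingHom ℚ)

/-- homogeneous of degree `r h` in the `h`-th block -/
def MH {m n : ℕ} {R : Type} [CommSemiring R] (r : Fin m → ℕ)
    (P : MvPolynomial (Fin m × Fin n) R) : Prop :=
  ∀ J, P.coeff J ≠ 0 → ∀ h, ∑ i, J (h, i) = r h

/-- the substitution `x h = N (y h)` in every block -/
noncomputable def lsub {m n : ℕ} {R : Type} [CommRing R] (N : Matrix (Fin n) (Fin n) R) :
    MvPolynomial (Fin m × Fin n) R →ₐ[R] MvPolynomial (Fin m × Fin n) R :=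
  MvPolynomial.aeval (fun hi => ∑ k, MvPolynomial.C (N hi.2 k) * MvPolynomial.X (hi.1, k))

/-- block vectors as points -/
def bl {m n : ℕ} {R : Type} (x : Fin m → Fin n → R) : Fin m × Fin n → R := fun hi => x hi.1 hi.2

end Pool.Agent.Helper70.SUB
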