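import Pool.Agent.Helper70.SUB.SheetG

/-!
Project SUB, third part: S-units, sums of S-units, the application to `y ^ 2 - x ^ 3`.
-/

set_option autoImplicit false

namespace Pool.Agent.Helper70.SUB

open Finset Matrix

/-! ## H. Compound rows -/

/-- enumeration of the `p`-subsets -/
noncomputable def enu (n p : ℕ) : {I : Finset (Fin n) // I.card = p} ≃
    Fin (Fintype.card {I : Finset (Fin n) // I.card = p}) := Fintype.equivFin _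

/-- compound matrix with `Fin` indices -/
noncomputable def cmpF {n : ℕ} (p : ℕ) (A : Matrix (Fin n) (Fin n) ℚ) :
    Matrix (Fin (Fintype.card {I : Finset (Fin n) // I.card = p}))
      (Fin (Fintype.card {I : Finset (Fin n) // I.card = p})) ℚ :=
  (cmp p A).submatrix (enu n p).symm (enu n p).symm

/-- (PARH) the hypotheses of Theorem G for the compound; `q` is the first index of the top block,
the numbers `lam (q-1)` and `lam q` have a gap -/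
def ST_PARH : Prop := ∀ (n q : ℕ) (S : Finset ℕ) (A : Option ℕ → Matrix (Fin n) (Fin n) ℚ) (C : ℝ),
  (∀ p ∈ S, p.Prime) → (∀ v ∈ plc S, (A v).det ≠ 0) → 1 ≤ C → ∀ (hq : 1 ≤ q) (hqn : q < n),
  ∃ C' : ℝ, 1 ≤ C' ∧ ∀ (s : Option ℕ → Fin n → ℝ) (B : Matrix (Fin n) (Fin n) ℤ) (lam : Fin n → ℝ)
    (top : {I : Finset (Fin n) // I.card = n - q}),
    (∀ v ∈ plc S, ∀ i, 0 < s v i) → Bas n S A s C B lam →
    top.1 = Finset.univ.filter (fun l : Fin n => q ≤ (l : ℕ)) →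
    ∃ (h : Fin (Fintype.card {I : Finset (Fin n) // I.card = n - q}) → ℤ) (w : ℚ), w ≠ 0 ∧
      (∀ I, cmp (n - q) ((mQ B)⁻¹)ᵀ I top = w * h (enu n (n - q) I)) ∧
      GHyp (Fintype.card {I : Finset (Fin n) // I.card = n - q}) S
        (fun v => cmpF (n - q) (A v))
        (fun v I => ∏ i ∈ ((enu n (n - q)).symm I).1, s v i)
        (C' * (lam ⟨q - 1, by omega⟩ * ∏ l ∈ Finset.univ.filter (fun l : Fin n => q < (l : ℕ)), lam l))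
        ((∏ l ∈ Finset.univ.filter (fun l : Fin n => q ≤ (l : ℕ)), lam l) / C') h

/-! ## I. S-units -/

/-- nonzero integers all of whose prime factors lie in `S` -/
def SU (S : Finset ℕ) (u : ℤ) : Prop := u ≠ 0 ∧ ∀ q : ℕ, q.Prime → (q : ℤ) ∣ u → q ∈ S

/-- (REL) a linear relation with nonzero coefficients between S-units makes two of them
proportional on an infinite set (strong induction on the number of terms, Subspace theorem) -/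
def ST_REL : Prop := ∀ (ι : Type) [Fintype ι] [DecidableEq ι] (S : Finset ℕ) (a : ι → ℚ)
  (M : Set ℕ) (u : ℕ → ι → ℤ), (∀ p ∈ S, p.Prime) → Nonempty ι → (∀ i, a i ≠ 0) → M.Infinite →
  (∀ j ∈ M, ∀ i, SU S (u j i)) → (∀ j ∈ M, ∑ i, a i * (u j i : ℚ) = 0) →
  ∃ (i i' : ι) (M' : Set ℕ) (ρ : ℚ), i ≠ i' ∧ M' ⊆ M ∧ M'.Infinite ∧
    ∀ j ∈ M', (u j i : ℚ) = ρ * u j i'

/-- (U2) lower bound at any place for sums of S-units, sequence form: no two of the terms are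
proportional on an infinite set -/
def ST_U2 : Prop := ∀ (ι : Type) [Fintype ι] [DecidableEq ι] (S : Finset ℕ) (a : ι → ℚ) (ε : ℝ)
  (M : Set ℕ) (u : ℕ → ι → ℤ) (v : Option ℕ), (∀ p ∈ S, p.Prime) → Nonempty ι → (∀ i, a i ≠ 0) →
  0 < ε → M.Infinite → (∀ j ∈ M, ∀ i, SU S (u j i)) →
  (∀ (i i' : ι) (ρ : ℚ), i ≠ i' → {j | j ∈ M ∧ (u j i : ℚ) = ρ * u j i'}.Finite) → v ∈ plc S →
  ∃ C : ℝ, 0 < C ∧ {j | j ∈ M ∧ ¬ ∀ (i : ι) (H : ℝ), (∀ i', |(u j i' : ℝ)| ≤ H) →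
    C * av v (u j i) * H ^ (-ε) ≤ av v (∑ i, a i * (u j i : ℚ))}.Finite

/-- (CLEAN) removal of cancelling terms: choose a representation with the minimal number of
terms, then `ST_U2` at the real place -/
def ST_CLEAN : Prop := ∀ (t : ℕ) (S : Finset ℕ) (M : Set ℕ) (a : ℕ → Fin t → ℤ),
  (∀ p ∈ S, p.Prime) → M.Infinite → (∀ j ∈ M, ∀ i, a j i = 0 ∨ SU S (a j i)) →
  (∀ j ∈ M, ∑ i, a j i ≠ 0) →
  ∃ (M' : Set ℕ) (t' : ℕ) (c : Fin t' → ℚ) (b : ℕ → Fin t' → ℤ), M' ⊆ M ∧ M'.Infinite ∧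
    (∀ i, c i ≠ 0) ∧ (∀ j ∈ M', ∀ i, SU S (b j i)) ∧
    (∀ j ∈ M', ((∑ i, a j i : ℤ) : ℚ) = ∑ i, c i * (b j i : ℚ)) ∧
    ∃ K : ℝ, ∀ j ∈ M', ∀ i, |(b j i : ℝ)| ≤ K * |((∑ i, a j i : ℤ) : ℝ)| ^ (2 : ℝ)

/-! ## J. Laurent polynomials -/

/-- (UNI) a primitive vector is the first column of a unimodular matrix -/
def ST_UNI : Prop := ∀ (N : ℕ) (u : Fin (N + 1) → ℤ), Prim u →
  ∃ T : Matrix (Fin (N + 1)) (Fin (N + 1)) ℤ, IsUnit T.det ∧ ∀ i, T i 0 = u i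

/-- monomials -/
noncomputable def mon {r : ℕ} (w : Fin r → ℚ) (m : Fin r → ℤ) : ℚ := ∏ k, w k ^ (m k)

/-- independent quantities: no nontrivial monomial is constant on an infinite subset of `M` -/
def Indep {r : ℕ} (M : Set ℕ) (w : ℕ → Fin r → ℚ) : Prop :=
  (∀ j ∈ M, ∀ k, 0 < w j k) ∧
  (∀ (l : Fin r → ℤ) (ρ : ℚ), l ≠ 0 → {j | j ∈ M ∧ mon (w j) l = ρ}.Finite)

/-- (MONO) along an infinite set the terms are monomials in independent quantities: choose `r`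
minimal among all representations -/
def ST_MONO : Prop := ∀ (ι : Type) [Fintype ι] (M : Set ℕ) (u : ℕ → ι → ℤ), M.Infinite →
  (∀ j ∈ M, ∀ i, u j i ≠ 0) →
  ∃ (M' : Set ℕ) (r : ℕ) (w : ℕ → Fin r → ℚ) (m : ι → Fin r → ℤ) (c : ι → ℚ), M' ⊆ M ∧
    M'.Infinite ∧ (∀ i, c i ≠ 0) ∧ Indep M' w ∧
    (∀ j ∈ M', ∀ i, (u j i : ℚ) = c i * mon (w j) (m i)) ∧
    (∀ k, ∃ (κ : ℚ) (e : ι → ℤ), 0 < κ ∧ ∀ j ∈ M', w j k = κ * ∏ i, |(u j i : ℚ)| ^ (e i))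

/-- Laurent polynomials -/
abbrev Lau (r : ℕ) := AddMonoidAlgebra ℚ (Fin r → ℤ)

/-- evaluation -/
noncomputable def evL {r : ℕ} (w : Fin r → ℚ) (F : Lau r) : ℚ :=
  ∑ m ∈ Finsupp.support F.coeff, F.coeff m * mon w m

/-- the derivation attached to `δ` -/
noncomputable def drv {r : ℕ} (δ : Fin r → ℤ) (F : Lau r) : Lau r :=
  ∑ m ∈ Finsupp.support F.coeff, AddMonoidAlgebra.single m (((∑ k, δ k * m k : ℤ) : ℚ) * F.coeff m)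

/-- (LAUB) evaluation is a ring homomorphism, `drv` is a derivation -/
def ST_LAUB : Prop := ∀ (r : ℕ),
  (∀ (w : Fin r → ℚ), (∀ k, 0 < w k) →
    (∀ m m' : Fin r → ℤ, mon w (m + m') = mon w m * mon w m') ∧
    (∀ (m : Fin r → ℤ) (c : ℚ), evL w (AddMonoidAlgebra.single m c) = c * mon w m) ∧
    (∀ F G : Lau r, evL w (F + G) = evL w F + evL w G) ∧
    (∀ (c : ℚ) (F : Lau r), evL w (c • F) = c * evL w F) ∧
    (∀ F G : Lau r, evL w (F * G) = evL w F * evL w G)) ∧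
  (∀ (δ : Fin r → ℤ),
    (∀ (m : Fin r → ℤ) (c : ℚ), drv δ (AddMonoidAlgebra.single m c)
      = AddMonoidAlgebra.single m (((∑ k, δ k * m k : ℤ) : ℚ) * c)) ∧
    (∀ F G : Lau r, drv δ (F + G) = drv δ F + drv δ G) ∧
    (∀ F G : Lau r, drv δ (F * G) = F * drv δ G + drv δ F * G) ∧
    (∀ (F : Lau r) (m : Fin r → ℤ), (drv δ F).coeff m = ((∑ k, δ k * m k : ℤ) : ℚ) * F.coeff m))

/-- (LAU1) proportional logarithmic derivatives -/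
def ST_LAU1 : Prop := ∀ (r : ℕ) (F G : Lau r), G ≠ 0 →
  (∀ δ : Fin r → ℤ, F * drv δ G = G * drv δ F) → ∃ c : ℚ, F = c • G

/-- rational S-units, with a bound for the height -/
def SQ (S : Finset ℕ) (H : ℝ) (x : ℚ) : Prop := SU S x.num ∧ SU S (x.den : ℤ) ∧
  |(x.num : ℝ)| ≤ H ∧ (x.den : ℝ) ≤ H

/-- (LAU2) size of the terms of a Laurent polynomial in independent S-units, at the place `v` -/
def ST_LAU2 : Prop := ∀ (r : ℕ) (S : Finset ℕ) (M : Set ℕ) (w : ℕ → Fin r → ℚ) (F : Lau r) (ε : ℝ)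
  (H : ℕ → ℝ) (v : Option ℕ),
  (∀ p ∈ S, p.Prime) → M.Infinite → 0 < ε → F ≠ 0 → Indep M w →
  (∀ j ∈ M, ∀ k, SQ S (H j) (w j k)) → (∀ j ∈ M, 1 ≤ H j) → v ∈ plc S →
  ∃ C : ℝ, 0 < C ∧ {j | j ∈ M ∧ ¬ ∀ m ∈ Finsupp.support F.coeff,
    C * av v (mon (w j) m) * H j ^ (-ε) ≤ av v (evL (w j) F)}.Finite

/-- (NUM) values of Laurent polynomials in S-units have bounded denominators outside `S` -/
def ST_NUM : Prop := ∀ (r : ℕ) (S : Finset ℕ) (F : Lau r), (∀ p ∈ S, p.Prime) →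
  ∃ c : ℝ, 0 < c ∧ ∀ (w : Fin r → ℚ) (H : ℝ), (∀ k, 0 < w k) → (∀ k, SQ S H (w k)) →
    evL w F ≠ 0 → c ≤ ∏ v ∈ plc S, av v (evL w F)

/-- (SUBY) an integer close to the value of a Laurent polynomial is such a value -/
def ST_SUBY : Prop := ∀ (r : ℕ) (S : Finset ℕ) (M : Set ℕ) (w : ℕ → Fin r → ℚ) (F : Lau r)
  (a η : ℝ) (H : ℕ → ℝ) (z : ℕ → ℤ), (∀ p ∈ S, p.Prime) → M.Infinite → 0 < η → 0 < a → Indep M w →
  (∀ B : ℝ, {j | j ∈ M ∧ H j ≤ B}.Finite) →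
  (∀ j ∈ M, 1 ≤ H j ∧ (∀ k, SQ S (H j ^ a) (w j k)) ∧ |(z j : ℝ)| ≤ H j ^ a ∧
    |((z j : ℚ) : ℝ) - ((evL (w j) F : ℚ) : ℝ)| ≤ H j ^ (-η)) →
  ∃ (M' : Set ℕ) (G : Lau r), M' ⊆ M ∧ M'.Infinite ∧ ∀ j ∈ M', (z j : ℚ) = evL (w j) G

/-! ## K. The application to `y ^ 2 - x ^ 3` -/

/-- (CORE) the heart of the application -/
def ST_CORE : Prop := ∀ (r : ℕ) (S : Finset ℕ) (M : Set ℕ) (w : ℕ → Fin r → ℚ) (X Y : Lau r)
  (a ε : ℝ) (x y : ℕ → ℤ), (∀ p ∈ S, p.Prime) → M.Infinite → 0 < ε → 0 < a → Indep M w →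
  (∀ B : ℝ, {j | j ∈ M ∧ |(x j : ℝ)| ≤ B}.Finite) →
  (∀ j ∈ M, (∀ k, SQ S (|(x j : ℝ)| ^ a) (w j k)) ∧ (x j : ℚ) = evL (w j) X ∧
    (y j : ℚ) = evL (w j) Y ∧ y j ^ 2 ≠ x j ^ 3 ∧
    |((y j ^ 2 - x j ^ 3 : ℤ) : ℝ)| ≤ |(x j : ℝ)| ^ (1 / (2 + ε))) → False

/-- (EXTR) from the failure of the inequality to a sequence; here `P` is any set of pairs -/
def ST_EXTR : Prop := ∀ (τ : Type) (x y : τ → ℤ) (ε : ℝ), 0 < ε → (∀ s, y s ^ 2 ≠ x s ^ 3) →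
  (¬ ∃ C : ℝ, ∀ s, Real.log |(x s : ℝ)| ≤
      (2 + ε) * Real.log |((y s ^ 2 - x s ^ 3 : ℤ) : ℝ)| + C) →
  ∃ f : ℕ → τ, (∀ j : ℕ, (j : ℝ) ≤ |(x (f j) : ℝ)|) ∧
    ∀ j, |((y (f j) ^ 2 - x (f j) ^ 3 : ℤ) : ℝ)| ≤ |(x (f j) : ℝ)| ^ (1 / (2 + ε))

/-- (T1A) both `x` and `y` are sums of boundedly many S-units -/
def ST_T1A : Prop := ∀ (S : Finset ℕ) (t : ℕ) (ε : ℝ), (∀ p ∈ S, p.Prime) → 0 < ε →
  ∃ C : ℝ, ∀ a b : Fin t → ℤ, (∀ i, a i = 0 ∨ SU S (a i)) → (∀ i, b i = 0 ∨ SU S (b i)) →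
    (∑ i, b i) ^ 2 ≠ (∑ i, a i) ^ 3 →
    Real.log |((∑ i, a i : ℤ) : ℝ)| ≤
      (2 + ε) * Real.log |(((∑ i, b i) ^ 2 - (∑ i, a i) ^ 3 : ℤ) : ℝ)| + C

/-- (BINX) truncated binomial series, exponent `3/2` or `2/3` -/
def ST_BINX : Prop := ∀ (α : ℚ) (K : ℕ), 0 < α → α < 2 → ∃ (c : ℕ → ℚ) (C : ℝ), 1 ≤ C ∧
  ∀ v : ℝ, |v| ≤ 1 / 2 → |(1 + v) ^ (α : ℝ) - ∑ k ∈ Finset.range K, (c k : ℝ) * v ^ k|
    ≤ C * |v| ^ K

/-- (T1B) `x = w ^ 2 +` smaller S-units, `y` an arbitrary integer -/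
def ST_T1B : Prop := ∀ (S : Finset ℕ) (t : ℕ) (ε δ : ℝ), (∀ p ∈ S, p.Prime) → 0 < ε → 0 < δ →
  ∃ C : ℝ, ∀ (w : ℤ) (a : Fin t → ℤ) (y : ℤ), SU S w → (∀ i, a i = 0 ∨ SU S (a i)) →
    (∀ i, |(a i : ℝ)| ≤ |(w : ℝ)| ^ (2 - δ)) → y ^ 2 ≠ (w ^ 2 + ∑ i, a i) ^ 3 →
    Real.log |((w ^ 2 + ∑ i, a i : ℤ) : ℝ)| ≤
      (2 + ε) * Real.log |((y ^ 2 - (w ^ 2 + ∑ i, a i) ^ 3 : ℤ) : ℝ)| + C

/-- (T1C) `y = w ^ 3 +` smaller S-units, `x` an arbitrary integer -/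
def ST_T1C : Prop := ∀ (S : Finset ℕ) (t : ℕ) (ε δ : ℝ), (∀ p ∈ S, p.Prime) → 0 < ε → 0 < δ →
  ∃ C : ℝ, ∀ (w : ℤ) (b : Fin t → ℤ) (x : ℤ), SU S w → (∀ i, b i = 0 ∨ SU S (b i)) →
    (∀ i, |(b i : ℝ)| ≤ |(w : ℝ)| ^ (3 - δ)) → (w ^ 3 + ∑ i, b i) ^ 2 ≠ x ^ 3 →
    Real.log |(x : ℝ)| ≤
      (2 + ε) * Real.log |(((w ^ 3 + ∑ i, b i) ^ 2 - x ^ 3 : ℤ) : ℝ)| + C

/-! ## L. The application to double zeta values -/

/-- double zeta value `ζ(r, s)`, larger variable with exponent `r` -/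
noncomputable def dz (r s : ℕ) : ℝ := ∑' p : ℕ × ℕ,
  (1 : ℝ) / ((((p.1 + p.2 + 2 : ℕ) : ℝ) ^ r) * (((p.2 + 1 : ℕ) : ℝ) ^ s))

/-- (T2) relations with boundedly many terms and bounded coefficients involve a value with small
first argument -/
def ST_T2 : Prop := ∀ t H : ℕ, ∃ R : ℕ, ∀ (k : ℕ) (W : Finset ℕ) (c : ℕ → ℤ) (c0 : ℤ),
  2 ≤ k → W.card ≤ t → (∀ r ∈ W, R ≤ r ∧ r < k) → (∀ r ∈ W, |c r| ≤ H) → |c0| ≤ H →
  ∑ r ∈ W, (c r : ℝ) * dz r (k - r) = c0 * ∑' n : ℕ, (1 : ℝ) / ((n + 1 : ℕ) : ℝ) ^ k →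
  (∀ r ∈ W, c r = 0) ∧ c0 = 0

end Pool.Agent.Helper70.SUB
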