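import Pool.Agent.Helper70.SUB.SheetR

/-!
Project SUB, second part: reduction theory, compounds, Theorem G, the Subspace theorem.
-/

set_option autoImplicit false

namespace Pool.Agent.Helper70.SUB

open Finset Matrix

/-- integer matrices as real / rational ones -/
abbrev mR {ι κ : Type} (W : Matrix ι κ ℤ) : Matrix ι κ ℝ := W.map (Int.cast : ℤ → ℝ)
abbrev mQ {ι κ : Type} (W : Matrix ι κ ℤ) : Matrix ι κ ℚ := W.map (Int.cast : ℤ → ℚ)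

/-! ## E. Reduction theory -/

/-- (HERM) Hermite reduction -/
def ST_HERM : Prop := ∀ N : ℕ, ∃ C : ℝ, 0 < C ∧ ∀ M : Matrix (Fin N) (Fin N) ℝ, M.PosDef →
  ∃ W : Matrix (Fin N) (Fin N) ℤ, IsUnit W.det ∧ ∏ k, ((mR W)ᵀ * M * mR W) k k ≤ C * M.det

/-- (REDB) reduced bases -/
def ST_REDB : Prop := ∀ N : ℕ, ∃ C : ℝ, 1 ≤ C ∧ ∀ G : Matrix (Fin N) (Fin N) ℝ, G.det ≠ 0 →
  ∃ (W : Matrix (Fin N) (Fin N) ℤ) (lam : Fin N → ℝ), IsUnit W.det ∧ (∀ k, 0 < lam k) ∧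
    Monotone lam ∧ (∀ i k, |(G * mR W) i k| ≤ C * lam k) ∧
    (∀ k i, |((G * mR W)⁻¹) k i| ≤ C / lam k)

/-- (LATP) the lattice of the integral points of a `p`-adic box, `p ∈ S` -/
def ST_LATP : Prop := ∀ (N : ℕ) (S : Finset ℕ) (A : Option ℕ → Matrix (Fin N) (Fin N) ℚ) (K : ℝ),
  (∀ p ∈ S, p.Prime) → (∀ v ∈ plc S, (A v).det ≠ 0) → 1 ≤ K →
  ∃ C : ℝ, 1 ≤ C ∧ ∀ s : Option ℕ → Fin N → ℝ, (∀ v ∈ plc S, ∀ i, 0 < s v i) →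
    (∀ p ∈ S, ∀ i, s (some p) i ≤ K) →
  ∃ B : Matrix (Fin N) (Fin N) ℤ, B.det ≠ 0 ∧
    (∀ q : ℕ, q.Prime → (q : ℤ) ∣ B.det → q ∈ S) ∧
    (∀ p ∈ S, ∀ i k, av (some p) ((A (some p) * mQ B) i k) ≤ s (some p) i) ∧
    (∀ p ∈ S, ∀ k i, av (some p) (((A (some p) * mQ B)⁻¹) k i) * s (some p) i ≤ C) ∧
    (∀ x : Fin N → ℤ, (∀ p ∈ S, ∀ i, av (some p) ((A (some p)).mulVec (cv x) i) ≤ s (some p) i) →
      ∃ z : Fin N → ℤ, x = B.mulVec z)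

/-- the conclusion of `ST_BAS`: a reduced basis of the lattice of a box; `C` is the constant -/
structure Bas (N : ℕ) (S : Finset ℕ) (A : Option ℕ → Matrix (Fin N) (Fin N) ℚ)
    (s : Option ℕ → Fin N → ℝ) (C : ℝ) (B : Matrix (Fin N) (Fin N) ℤ) (lam : Fin N → ℝ) :
    Prop where
  det_ne : B.det ≠ 0
  det_S : ∀ q : ℕ, q.Prime → (q : ℤ) ∣ B.det → q ∈ S
  pos : ∀ k, 0 < lam k
  mono : Monotone lam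
  fin_le : ∀ p ∈ S, ∀ i k, av (some p) ((A (some p) * mQ B) i k) ≤ s (some p) i
  fin_inv : ∀ p ∈ S, ∀ k i, av (some p) (((A (some p) * mQ B)⁻¹) k i) * s (some p) i ≤ C
  inf_le : ∀ i k, av none ((A none * mQ B) i k) ≤ C * s none i * lam k
  inf_inv : ∀ k i, av none (((A none * mQ B)⁻¹) k i) * (lam k * s none i) ≤ C
  mem : ∀ x : Fin N → ℤ,
    (∀ p ∈ S, ∀ i, av (some p) ((A (some p)).mulVec (cv x) i) ≤ s (some p) i) →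
      ∃ z : Fin N → ℤ, x = B.mulVec z

/-- (BAS) combination of `ST_LATP` and `ST_REDB` -/
def ST_BAS : Prop := ∀ (N : ℕ) (S : Finset ℕ) (A : Option ℕ → Matrix (Fin N) (Fin N) ℚ) (K : ℝ),
  (∀ p ∈ S, p.Prime) → (∀ v ∈ plc S, (A v).det ≠ 0) → 1 ≤ K →
  ∃ C : ℝ, 1 ≤ C ∧ ∀ s : Option ℕ → Fin N → ℝ, (∀ v ∈ plc S, ∀ i, 0 < s v i) →
    (∀ p ∈ S, ∀ i, s (some p) i ≤ K) →
  ∃ (B : Matrix (Fin N) (Fin N) ℤ) (lam : Fin N → ℝ), Bas N S A s C B lam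

/-- (VOL) the volume of the box -/
def ST_VOL : Prop := ∀ (N : ℕ) (S : Finset ℕ) (A : Option ℕ → Matrix (Fin N) (Fin N) ℚ) (C : ℝ),
  (∀ p ∈ S, p.Prime) → (∀ v ∈ plc S, (A v).det ≠ 0) → 1 ≤ C →
  ∃ C' : ℝ, 1 ≤ C' ∧ ∀ (s : Option ℕ → Fin N → ℝ) (B : Matrix (Fin N) (Fin N) ℤ)
    (lam : Fin N → ℝ), (∀ v ∈ plc S, ∀ i, 0 < s v i) → Bas N S A s C B lam →
    1 / C' ≤ (∏ v ∈ plc S, ∏ i, s v i) * ∏ k, lam k ∧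
    (∏ v ∈ plc S, ∏ i, s v i) * ∏ k, lam k ≤ C'

/-- (COEF) coordinates of small vectors: `x = B z`, `|z k| ≤ N C μ / lam k` -/
def ST_COEF : Prop := ∀ (N : ℕ) (S : Finset ℕ) (A : Option ℕ → Matrix (Fin N) (Fin N) ℚ)
  (s : Option ℕ → Fin N → ℝ) (C : ℝ) (B : Matrix (Fin N) (Fin N) ℤ) (lam : Fin N → ℝ),
  (∀ p ∈ S, p.Prime) → (∀ v ∈ plc S, (A v).det ≠ 0) → (∀ v ∈ plc S, ∀ i, 0 < s v i) →
  Bas N S A s C B lam →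
  ∀ (z : Fin N → ℤ) (μ : ℝ), (∀ i, av none ((A none).mulVec (cv (B.mulVec z)) i) ≤ μ * s none i) →
    ∀ k, |(z k : ℝ)| * lam k ≤ N * C * μ

/-- (DAV) Davenport's lemma -/
def ST_DAV : Prop := ∀ (N : ℕ) (C : ℝ), 1 ≤ C → ∃ C' : ℝ, 1 ≤ C' ∧
  ∀ (U : Matrix (Fin N) (Fin N) ℝ) (lam rho : Fin N → ℝ), U.det ≠ 0 → (∀ i j, |U i j| ≤ C) →
    (∀ i j, |(U⁻¹) i j| ≤ C) → (∀ k, 0 < lam k) → (∀ k, 0 < rho k) → Monotone lam →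
    Antitone rho → Monotone (fun k => rho k * lam k) →
  ∃ (π : Equiv.Perm (Fin N)) (W : Matrix (Fin N) (Fin N) ℤ), IsUnit W.det ∧
    (∀ (z : Fin N → ℤ) (k : Fin N), z k ≠ 0 →
      ∃ i, rho k * lam k ≤ C' * (rho (π i) * |∑ l, U i l * lam l * (z l : ℝ)|)) ∧
    (∀ i k, rho (π i) * |∑ l, U i l * lam l * (W l k : ℝ)| ≤ C' * (rho k * lam k))

/-! ## F. Theorem G -/

/-- the hypotheses of Theorem G for one member of the sequence: `h` is a primitive vector, the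
integral points of norm at most `μ` in the box `s` have annihilator `ℚ h`, the dual size of `h` is
at most `1 / ν` -/
structure GHyp (N : ℕ) (S : Finset ℕ) (A : Option ℕ → Matrix (Fin N) (Fin N) ℚ)
    (s : Option ℕ → Fin N → ℝ) (μ ν : ℝ) (h : Fin N → ℤ) : Prop where
  prim : Prim h
  spos : ∀ v ∈ plc S, ∀ i, 0 < s v i
  mupos : 0 < μ
  nupos : 0 < ν
  ann : ∀ y : Fin N → ℚ, (∀ x : Fin N → ℤ,
      (∀ v ∈ plc S, ∀ i, av v ((A v).mulVec (cv x) i) ≤ (if v = none then μ else 1) * s v i) →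
        ∑ i, y i * x i = 0) → ∃ c : ℚ, ∀ i, y i = c * h i
  dual : ∃ t : Option ℕ → ℝ, (∀ v ∈ plc S, 0 < t v) ∧
    (∀ v ∈ plc S, ∀ i, av v (((A v)⁻¹)ᵀ.mulVec (cv h) i) * s v i ≤ t v) ∧
    ∏ v ∈ plc S, t v ≤ 1 / ν

/-- the hypotheses of Theorem G for the whole sequence -/
structure GSeq (N : ℕ) (S : Finset ℕ) (A : Option ℕ → Matrix (Fin N) (Fin N) ℚ) (K a δ : ℝ)
    (M : Set ℕ) (Q : ℕ → ℝ) (s : ℕ → Option ℕ → Fin N → ℝ) (μ ν : ℕ → ℝ) (h : ℕ → Fin N → ℤ) :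
    Prop where
  inf : M.Infinite
  lim : Filter.Tendsto Q Filter.atTop Filter.atTop
  hyp : ∀ j ∈ M, GHyp N S A (s j) (μ j) (ν j) (h j)
  sK : ∀ j ∈ M, ∀ p ∈ S, ∀ i, s j (some p) i ≤ K
  lo : ∀ j ∈ M, ∀ v ∈ plc S, ∀ i, Q j ^ (-a) ≤ s j v i
  up : ∀ j ∈ M, ∀ v ∈ plc S, ∀ i, s j v i ≤ Q j ^ a
  gap : ∀ j ∈ M, μ j ≤ Q j ^ (-δ) * ν j

/-- (CPT) compactness -/
def ST_CPT : Prop := ∀ (κ : Type) [Fintype κ] (M : Set ℕ) (a η : ℝ) (c : ℕ → κ → ℝ),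
  M.Infinite → 0 < η → (∀ j ∈ M, ∀ i, |c j i| ≤ a) →
  ∃ (M' : Set ℕ) (c0 : κ → ℝ), M' ⊆ M ∧ M'.Infinite ∧ ∀ j ∈ M', ∀ i, |c j i - c0 i| ≤ η

/-- (QUO) passage to a quotient: all `h j` are orthogonal to `u`. Transport by a unimodular matrix
so that `u` is a coordinate vector; at the place `v` drop the index `i` with `(A v u) i ≠ 0` and
`s v i` minimal (constant on an infinite subset of `M`) -/
def ST_QUO : Prop := ∀ (N : ℕ) (S : Finset ℕ) (A : Option ℕ → Matrix (Fin (N + 1)) (Fin (N + 1)) ℚ)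
  (K a δ : ℝ) (M : Set ℕ) (Q : ℕ → ℝ) (s : ℕ → Option ℕ → Fin (N + 1) → ℝ) (μ ν : ℕ → ℝ)
  (h : ℕ → Fin (N + 1) → ℤ) (u : Fin (N + 1) → ℚ), 1 ≤ N → (∀ p ∈ S, p.Prime) →
  (∀ v ∈ plc S, (A v).det ≠ 0) → 1 ≤ K → 0 < a → 0 < δ →
  GSeq (N + 1) S A K a δ M Q s μ ν h → u ≠ 0 → (∀ j ∈ M, ∑ i, u i * h j i = 0) →
  ∃ (A' : Option ℕ → Matrix (Fin N) (Fin N) ℚ) (K' a' δ' : ℝ) (M' : Set ℕ)
    (s' : ℕ → Option ℕ → Fin N → ℝ) (μ' ν' : ℕ → ℝ) (h' : ℕ → Fin N → ℤ)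
    (T : Matrix (Fin (N + 1)) (Fin N) ℤ), (∀ v ∈ plc S, (A' v).det ≠ 0) ∧ 1 ≤ K' ∧ 0 < a' ∧
    0 < δ' ∧ M' ⊆ M ∧ GSeq N S A' K' a' δ' M' Q s' μ' ν' h' ∧
    ∀ j ∈ M', h j = T.mulVec (h' j)

/-- (SPAN) first consequences of `GHyp` and `Bas` (here `N = k + 1`, `k ≥ 1`): `lam (k - 1)` is at
most a constant times `μ`, `h` is orthogonal to the first `k` basis vectors, the dual size of `h` is
at most a constant over `lam k` -/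
def ST_SPAN : Prop := ∀ (k : ℕ) (S : Finset ℕ) (A : Option ℕ → Matrix (Fin (k + 1)) (Fin (k + 1)) ℚ)
  (C : ℝ), 1 ≤ k → (∀ p ∈ S, p.Prime) → (∀ v ∈ plc S, (A v).det ≠ 0) → 1 ≤ C →
  ∃ C' : ℝ, 1 ≤ C' ∧ ∀ (s : Option ℕ → Fin (k + 1) → ℝ) (μ ν : ℝ) (h : Fin (k + 1) → ℤ)
    (B : Matrix (Fin (k + 1)) (Fin (k + 1)) ℤ) (lam : Fin (k + 1) → ℝ),
    GHyp (k + 1) S A s μ ν h → Bas (k + 1) S A s C B lam → C' * μ < ν →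
    (∀ l : Fin (k + 1), (l : ℕ) < k → lam l ≤ C' * μ ∧ ∑ i, h i * B i l = 0) ∧
    (ν ≤ C' * lam (Fin.last k)) ∧
    ∃ t : Option ℕ → ℝ, (∀ v ∈ plc S, 0 < t v) ∧
      (∀ v ∈ plc S, ∀ i, av v (((A v)⁻¹)ᵀ.mulVec (cv h) i) * s v i ≤ t v) ∧
      ∏ v ∈ plc S, t v ≤ C' / lam (Fin.last k)

/-- (HLOW) lower bound for the height of `h` in the nondegenerate case -/
def ST_HLOW : Prop := ∀ (k : ℕ) (S : Finset ℕ) (A : Option ℕ → Matrix (Fin (k + 1)) (Fin (k + 1)) ℚ)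
  (C δ : ℝ), 1 ≤ k → (∀ p ∈ S, p.Prime) → (∀ v ∈ plc S, (A v).det ≠ 0) → 1 ≤ C → 0 < δ →
  ∃ (τ Q0 : ℝ), 0 < τ ∧ ∀ (Q : ℝ) (s : Option ℕ → Fin (k + 1) → ℝ) (h : Fin (k + 1) → ℤ)
    (lam : Fin (k + 1) → ℝ) (t : Option ℕ → ℝ), Q0 ≤ Q → (∀ v ∈ plc S, ∀ i, 0 < s v i) →
    (∀ l, 0 < lam l) → 1 / C ≤ (∏ v ∈ plc S, ∏ i, s v i) * ∏ l, lam l →
    (∀ l : Fin (k + 1), (l : ℕ) < k → lam l ≤ Q ^ (-δ) * lam (Fin.last k)) →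
    (∀ v ∈ plc S, ∀ i, ((A v)⁻¹)ᵀ.mulVec (cv h) i ≠ 0) → (∀ v ∈ plc S, 0 < t v) →
    (∀ v ∈ plc S, ∀ i, av v (((A v)⁻¹)ᵀ.mulVec (cv h) i) * s v i ≤ t v) →
    ∏ v ∈ plc S, t v ≤ C / lam (Fin.last k) → ∃ i, Q ^ τ ≤ |(h i : ℝ)|

/-- (BOX) the new box of Davenport's lemma: `k` independent integral vectors in the hyperplane
`h`, all of norm about `κ`, scales `s'`; the product of all scales times `κ ^ (k+1) Q ^ δ` is at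
most `C'`, and everything is polynomial in `Q` -/
def ST_BOX : Prop := ∀ (k : ℕ) (S : Finset ℕ) (A : Option ℕ → Matrix (Fin (k + 1)) (Fin (k + 1)) ℚ)
  (C a δ : ℝ), 1 ≤ k → (∀ p ∈ S, p.Prime) → (∀ v ∈ plc S, (A v).det ≠ 0) → 1 ≤ C → 0 < a → 0 < δ →
  ∃ (C' a' Q0 : ℝ), 1 ≤ C' ∧ 0 < a' ∧ ∀ (Q : ℝ) (s : Option ℕ → Fin (k + 1) → ℝ)
    (h : Fin (k + 1) → ℤ) (B : Matrix (Fin (k + 1)) (Fin (k + 1)) ℤ) (lam : Fin (k + 1) → ℝ),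
    Q0 ≤ Q → (∀ v ∈ plc S, ∀ i, Q ^ (-a) ≤ s v i ∧ s v i ≤ Q ^ a) →
    Bas (k + 1) S A s C B lam →
    (∀ l : Fin (k + 1), (l : ℕ) < k → ∑ i, h i * B i l = 0) →
    (∀ l : Fin (k + 1), (l : ℕ) < k → lam l ≤ Q ^ (-δ) * lam (Fin.last k)) →
    ∃ (s' : Option ℕ → Fin (k + 1) → ℝ) (g : Fin k → Fin (k + 1) → ℤ),
      (∀ v ∈ plc S, ∀ i, Q ^ (-a') ≤ s' v i ∧ s' v i ≤ Q ^ a') ∧
      (∏ v ∈ plc S, ∏ i, s' v i ≤ C') ∧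
      LinearIndependent ℚ (fun b => cv (g b)) ∧ (∀ b, ∑ i, h i * g b i = 0) ∧
      (∀ v ∈ plc S, ∀ b i, av v ((A v).mulVec (cv (g b)) i)
        ≤ C' * s' v i * if v = none then Q ^ (-(δ / (k + 1))) else 1)

/-- (NDG) the nondegenerate case, from SPAN, HLOW, BOX, BAS, VOL, CPT, RM -/
def ST_NDG : Prop := ∀ (k : ℕ) (S : Finset ℕ) (A : Option ℕ → Matrix (Fin (k + 1)) (Fin (k + 1)) ℚ)
  (K a δ : ℝ) (M : Set ℕ) (Q : ℕ → ℝ) (s : ℕ → Option ℕ → Fin (k + 1) → ℝ) (μ ν : ℕ → ℝ)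
  (h : ℕ → Fin (k + 1) → ℤ), 1 ≤ k → (∀ p ∈ S, p.Prime) → (∀ v ∈ plc S, (A v).det ≠ 0) →
  1 ≤ K → 0 < a → 0 < δ → GSeq (k + 1) S A K a δ M Q s μ ν h →
  ∃ u : Fin (k + 1) → ℚ, u ≠ 0 ∧ {j | j ∈ M ∧ ∑ i, u i * h j i = 0}.Infinite

/-- (THG) Theorem G, by induction on `N` from NDG and QUO -/
def ST_THG : Prop := ∀ (N : ℕ) (S : Finset ℕ) (A : Option ℕ → Matrix (Fin N) (Fin N) ℚ)
  (K a δ : ℝ) (M : Set ℕ) (Q : ℕ → ℝ) (s : ℕ → Option ℕ → Fin N → ℝ) (μ ν : ℕ → ℝ)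
  (h : ℕ → Fin N → ℤ), 1 ≤ N → (∀ p ∈ S, p.Prime) → (∀ v ∈ plc S, (A v).det ≠ 0) →
  1 ≤ K → 0 < a → 0 < δ → GSeq N S A K a δ M Q s μ ν h →
  ∃ h0 : Fin N → ℤ, {j | j ∈ M ∧ h j = h0}.Infinite

/-! ## G. Compounds and the Subspace theorem -/

/-- the increasing enumeration of a `p`-subset -/
def emb {n p : ℕ} (I : {I : Finset (Fin n) // I.card = p}) : Fin p → Fin n :=
  I.1.orderEmbOfFin I.2

/-- compound matrix: the matrix of the minors of order `p` -/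
def cmp {n : ℕ} {R : Type} [CommRing R] (p : ℕ) (A : Matrix (Fin n) (Fin n) R) :
    Matrix {I : Finset (Fin n) // I.card = p} {I : Finset (Fin n) // I.card = p} R :=
  fun I J => (A.submatrix (emb I) (emb J)).det

/-- (CB) Cauchy-Binet -/
def ST_CB : Prop := ∀ (n p : ℕ),
  (∀ A B : Matrix (Fin n) (Fin n) ℚ, cmp p (A * B) = cmp p A * cmp p B) ∧
  (cmp p (1 : Matrix (Fin n) (Fin n) ℚ) = 1) ∧
  (∀ A : Matrix (Fin n) (Fin n) ℚ, cmp p Aᵀ = (cmp p A)ᵀ) ∧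
  (∀ A : Matrix (Fin n) (Fin n) ℚ, A.det ≠ 0 → (cmp p A).det ≠ 0 ∧ cmp p A⁻¹ = (cmp p A)⁻¹) ∧
  (∀ (S : Finset ℕ) (v : Option ℕ) (A : Matrix (Fin n) (Fin n) ℚ) (s t : Fin n → ℝ) (C : ℝ),
    (∀ q ∈ S, q.Prime) → v ∈ plc S → (∀ i, 0 ≤ s i) → (∀ i, 0 ≤ t i) → 0 ≤ C →
    (∀ i k, av v (A i k) ≤ C * s i * t k) →
    ∀ I J, av v (cmp p A I J) ≤ (p.factorial : ℝ) * C ^ p * (∏ i ∈ I.1, s i) * ∏ k ∈ J.1, t k)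

/-- (PLK) a Pluecker vector determines a linear form which kills the subspace -/
def ST_PLK : Prop := ∀ (n p : ℕ) (h : {I : Finset (Fin n) // I.card = p} → ℚ), 1 ≤ p → h ≠ 0 →
  ∃ a : Fin n → ℚ, a ≠ 0 ∧ ∀ (D : Matrix (Fin n) (Fin p) ℚ) (w : ℚ), w ≠ 0 →
    (∀ I, (D.submatrix (emb I) id).det = w * h I) →
    ∀ x : Fin n → ℚ, (∀ l, ∑ i, D i l * x i = 0) → ∑ i, a i * x i = 0

/-- (GAPX) a gap between the minima -/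
def ST_GAPX : Prop := ∀ (n : ℕ) (C ε : ℝ), 1 ≤ n → 1 ≤ C → 0 < ε → ∃ (η Q0 : ℝ), 0 < η ∧
  ∀ (Q : ℝ) (lam : Fin n → ℝ), Q0 ≤ Q → (∀ k, 0 < lam k) → Monotone lam →
    (∃ k, lam k ≤ C) → Q ^ ε ≤ C * ∏ k, lam k →
    ∃ k k' : Fin n, (k : ℕ) + 1 = k' ∧ lam k ≤ Q ^ (-η) * lam k' ∧ C < lam k'

/-- (PAR) the parametric Subspace theorem -/
def ST_PAR : Prop := ∀ (n : ℕ) (S : Finset ℕ) (A : Option ℕ → Matrix (Fin n) (Fin n) ℚ)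
  (c : Option ℕ → Fin n → ℝ) (M : Set ℕ) (Q : ℕ → ℝ) (x : ℕ → Fin n → ℤ), 1 ≤ n →
  (∀ p ∈ S, p.Prime) → (∀ v ∈ plc S, (A v).det ≠ 0) → (∀ p ∈ S, ∀ i, c (some p) i ≤ 0) →
  ∑ v ∈ plc S, ∑ i, c v i < 0 → M.Infinite → Filter.Tendsto Q Filter.atTop Filter.atTop →
  (∀ j ∈ M, x j ≠ 0 ∧ ∀ v ∈ plc S, ∀ i, av v ((A v).mulVec (cv (x j)) i) ≤ Q j ^ (c v i)) →
  ∃ u : Fin n → ℚ, u ≠ 0 ∧ {j | j ∈ M ∧ ∑ i, u i * x j i = 0}.Infinite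

/-- (SUBT) the Subspace theorem -/
def ST_SUBT : Prop := ∀ (n : ℕ) (S : Finset ℕ) (A : Option ℕ → Matrix (Fin n) (Fin n) ℚ)
  (ε : ℝ) (M : Set ℕ) (x : ℕ → Fin n → ℤ), 1 ≤ n → (∀ p ∈ S, p.Prime) →
  (∀ v ∈ plc S, (A v).det ≠ 0) → 0 < ε → M.Infinite →
  (∀ H : ℝ, {j | j ∈ M ∧ ‖x j‖ ≤ H}.Finite) →
  (∀ j ∈ M, ∏ v ∈ plc S, ∏ i, av v ((A v).mulVec (cv (x j)) i) ≤ ‖x j‖ ^ (-ε)) →
  ∃ u : Fin n → ℚ, u ≠ 0 ∧ {j | j ∈ M ∧ ∑ i, u i * x j i = 0}.Infinite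

end Pool.Agent.Helper70.SUB
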