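import Pool.Agent.Helper77.SUBK.SheetK

/-!
Project SUBK, third sheet (helper70): one of the two integers is dominated by one term and the
other one is arbitrary.
-/

set_option autoImplicit false

namespace Pool.Agent.Helper70.SUBL

open Finset Matrix Pool.Agent.Helper70.SUB Pool.Agent.Helper77.SUBK

/-- (SUBYK) an integer which is close, at every archimedean place, to the value of a Laurent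
polynomial (depending on the place) is such a value -/
def ST_SUBYK : Prop := ∀ (M : Type) [Field M] [NumberField M] [IsGalois ℚ M] (S : Finset ℕ)
  (P : PF S M) (r : ℕ) (M1 : Set ℕ) (w : ℕ → Fin r → M) (F : (M ≃ₐ[ℚ] M) → LauM M r)
  (a η : ℝ) (H : ℕ → ℝ) (z : ℕ → ℤ), (∀ p ∈ S, p.Prime) → M1.Infinite → 0 < η → 0 < a →
  IndepM M1 w → (∀ B : ℝ, {j | j ∈ M1 ∧ H j ≤ B}.Finite) →
  (∀ j ∈ M1, 1 ≤ H j ∧ (∀ k, SV S (w j k) ∧ HB P (H j ^ a) (w j k)) ∧ |(z j : ℝ)| ≤ H j ^ a ∧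
    ∀ σ : M ≃ₐ[ℚ] M, P.nv none (σ ((z j : M) - evM (w j) (F σ))) ≤ H j ^ (-η)) →
  ∃ (M' : Set ℕ) (G : LauM M r), M' ⊆ M1 ∧ M'.Infinite ∧ ∀ j ∈ M', (z j : M) = evM (w j) G

/-- (CLNB) removal of proportional terms by merging: every remaining term is one of the old ones -/
def ST_CLNB : Prop := ∀ (M : Type) [Field M] [NumberField M] (S : Finset ℕ) (t : ℕ)
  (M1 : Set ℕ) (a : ℕ → Fin t → M), M1.Infinite → (∀ j ∈ M1, ∀ i, a j i = 0 ∨ SV S (a j i)) →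
  ∃ (M' : Set ℕ) (t' : ℕ) (f : Fin t' → Fin t) (c : Fin t' → M), M' ⊆ M1 ∧ M'.Infinite ∧
    Function.Injective f ∧ (∀ i, c i ≠ 0) ∧ (∀ j ∈ M', ∀ i, SV S (a j (f i))) ∧
    (∀ j ∈ M', ∑ i, c i * a j (f i) = ∑ i, a j i) ∧
    (∀ (i i' : Fin t') (ρ : M), i ≠ i' → {j | j ∈ M' ∧ a j (f i) = ρ * a j (f i')}.Finite)

/-- (EXPK) truncated binomial series, algebraic form -/
def ST_EXPK : Prop := ∀ K : ℕ, 1 ≤ K →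
  (∃ (c : ℕ → ℚ) (C : ℝ), c 0 = 1 ∧ 1 ≤ C ∧ ∀ v : ℂ, ‖v‖ ≤ 1 →
    ‖(∑ k ∈ Finset.range K, (c k : ℂ) * v ^ k) ^ 2 - (1 + v) ^ 3‖ ≤ C * ‖v‖ ^ K) ∧
  (∃ (c : ℕ → ℚ) (C : ℝ), c 0 = 1 ∧ 1 ≤ C ∧ ∀ v : ℂ, ‖v‖ ≤ 1 →
    ‖(∑ k ∈ Finset.range K, (c k : ℂ) * v ^ k) ^ 3 - (1 + v) ^ 2‖ ≤ C * ‖v‖ ^ K)

/-- (CONJ) the common part of the two applications: from terms `w`, `a i` with
`‖a i‖ ≤ ‖w‖ ^ (n - δ)` at the distinguished place and integral sum `w ^ n + ∑ a i = x` to Laurent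
polynomials in independent `S'`-units, closed under conjugation -/
def ST_CONJ : Prop := ∀ (M : Type) [Field M] [NumberField M] [IsGalois ℚ M] (S : Finset ℕ)
  (φ : M →+* ℂ) (n t : ℕ) (δ : ℝ) (M1 : Set ℕ) (w : ℕ → M) (a : ℕ → Fin t → M) (x : ℕ → ℤ),
  (∀ p ∈ S, p.Prime) → 1 ≤ n → 0 < δ → δ < n → M1.Infinite → (∀ j ∈ M1, SV S (w j)) →
  (∀ j ∈ M1, ∀ i, a j i = 0 ∨ SV S (a j i)) →
  (∀ j ∈ M1, ∀ i, ‖φ (a j i)‖ ≤ ‖φ (w j)‖ ^ ((n : ℝ) - δ)) →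
  (∀ j ∈ M1, w j ^ n + ∑ i, a j i = (x j : M)) →
  (∀ B : ℝ, {j | j ∈ M1 ∧ |(x j : ℝ)| ≤ B}.Finite) →
  ∃ (M' : Set ℕ) (S' : Finset ℕ) (P : PF S' M) (r : ℕ) (u : ℕ → Fin r → M) (E : ℝ)
    (W Wi V : (M ≃ₐ[ℚ] M) → LauM M r), M' ⊆ M1 ∧ M'.Infinite ∧ (∀ p ∈ S', p.Prime) ∧ 0 < E ∧
    (∀ z, P.nv none z = ‖φ z‖) ∧ IndepM M' u ∧
    ∀ j ∈ M', 1 ≤ |(x j : ℝ)| ∧ (∀ k, SV S' (u j k) ∧ HB P (|(x j : ℝ)| ^ E) (u j k)) ∧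
      ∀ σ : M ≃ₐ[ℚ] M, evM (u j) (W σ) = σ.symm (w j) ∧ evM (u j) (Wi σ) = (σ.symm (w j))⁻¹ ∧
        evM (u j) (V σ) = σ.symm (∑ i, a j i)

/-- (T1BG) `x = w ^ 2 +` smaller S-units, `y` an arbitrary integer -/
def ST_T1BG : Prop := ∀ (M : Type) [Field M] [NumberField M] [IsGalois ℚ M] (S : Finset ℕ)
  (φ : M →+* ℂ) (t : ℕ) (ε δ : ℝ), (∀ p ∈ S, p.Prime) → 0 < ε → 0 < δ → δ < 2 →
  ∃ C : ℝ, ∀ (w : M) (a : Fin t → M) (x y : ℤ), SV S w → (∀ i, a i = 0 ∨ SV S (a i)) →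
    (∀ i, ‖φ (a i)‖ ≤ ‖φ w‖ ^ (2 - δ)) → w ^ 2 + ∑ i, a i = (x : M) → y ^ 2 ≠ x ^ 3 →
    Real.log |(x : ℝ)| ≤ (2 + ε) * Real.log |((y ^ 2 - x ^ 3 : ℤ) : ℝ)| + C

/-- (T1CG) `y = w ^ 3 +` smaller S-units, `x` an arbitrary integer; `M` contains the cube roots
of unity -/
def ST_T1CG : Prop := ∀ (M : Type) [Field M] [NumberField M] [IsGalois ℚ M] (S : Finset ℕ)
  (φ : M →+* ℂ) (ζ : M) (t : ℕ) (ε δ : ℝ), (∀ p ∈ S, p.Prime) → ζ ^ 2 + ζ + 1 = 0 → 0 < ε → 0 < δ → δ < 3 →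
  ∃ C : ℝ, ∀ (w : M) (b : Fin t → M) (x y : ℤ), SV S w → (∀ i, b i = 0 ∨ SV S (b i)) →
    (∀ i, ‖φ (b i)‖ ≤ ‖φ w‖ ^ (3 - δ)) → w ^ 3 + ∑ i, b i = (y : M) → y ^ 2 ≠ x ^ 3 →
    Real.log |(x : ℝ)| ≤ (2 + ε) * Real.log |((y ^ 2 - x ^ 3 : ℤ) : ℝ)| + C

/-- sums of at most `t` elements of `Γ` -/
def GSum (Γ : Subgroup ℂˣ) (t : ℕ) (z : ℂ) : Prop :=
  ∃ a : Fin t → ℂ, (∀ i, a i = 0 ∨ ∃ γ ∈ Γ, a i = (γ : ℂ)) ∧ z = ∑ i, a i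

/-- sums of one element `γ` of `Γ` and `t` elements of absolute value at most `|γ| ^ (1 - δ)` -/
def DSum (Γ : Subgroup ℂˣ) (t : ℕ) (δ : ℝ) (z : ℂ) : Prop :=
  ∃ γ ∈ Γ, ∃ a : Fin t → ℂ, (∀ i, a i = 0 ∨ ∃ γ' ∈ Γ, a i = (γ' : ℂ)) ∧
    (∀ i, ‖a i‖ ≤ ‖(γ : ℂ)‖ ^ (1 - δ)) ∧ z = (γ : ℂ) + ∑ i, a i

/-- (FINK) the final theorem -/
def ST_FINK : Prop := ∀ (Γ : Subgroup ℂˣ) (t : ℕ) (ε δ : ℝ), Γ.FG →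
  (∀ γ ∈ Γ, IsAlgebraic ℚ ((γ : ℂˣ) : ℂ)) → 0 < ε → 0 < δ → δ < 1 →
  ∃ C : ℝ, ∀ x y : ℤ,
    ((GSum Γ t (x : ℂ) ∧ GSum Γ t (y : ℂ)) ∨ DSum Γ t δ (x : ℂ) ∨ DSum Γ t δ (y : ℂ)) →
    y ^ 2 ≠ x ^ 3 →
    Real.log |(x : ℝ)| ≤ (2 + ε) * Real.log |((y ^ 2 - x ^ 3 : ℤ) : ℝ)| + C

end Pool.Agent.Helper70.SUBL
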