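import Pool.Agent.Helper70.SUB.SheetA

/-!
Project SUB, slow coefficients (moving targets), and the sharper form of the application to
double zeta values.
-/

set_option autoImplicit false

namespace Pool.Agent.Helper70.SUB

open Finset

/-- nonzero integers of size `exp (o (G j))` along `M` -/
def Slow (M : Set ℕ) (G : ℕ → ℝ) (b : ℕ → ℤ) : Prop :=
  (∀ j ∈ M, b j ≠ 0) ∧
  ∀ ε : ℝ, 0 < ε → {j | j ∈ M ∧ Real.exp (ε * G j) < |(b j : ℝ)|}.Finite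

/-- the sequences `u`, `u'` are proportional with slow factors on some infinite subset of `M` -/
def SProp (M : Set ℕ) (G : ℕ → ℝ) (u u' : ℕ → ℤ) : Prop :=
  ∃ (M' : Set ℕ) (b b' : ℕ → ℤ), M' ⊆ M ∧ M'.Infinite ∧ Slow M' G b ∧ Slow M' G b' ∧
    ∀ j ∈ M', b j * u j = b' j * u' j

/-- (RELS) a relation with slow coefficients between S-units makes two of them proportional with
slow factors on an infinite set -/
def ST_RELS : Prop := ∀ (ι : Type) [Fintype ι] [DecidableEq ι] (S : Finset ℕ) (M : Set ℕ)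
  (G : ℕ → ℝ) (a u : ℕ → ι → ℤ), (∀ p ∈ S, p.Prime) → Nonempty ι → M.Infinite →
  (∀ B : ℝ, {j | j ∈ M ∧ G j ≤ B}.Finite) → (∀ i, Slow M G (fun j => a j i)) →
  (∀ j ∈ M, ∀ i, SU S (u j i)) → (∀ j ∈ M, ∑ i, a j i * u j i = 0) →
  ∃ i i' : ι, i ≠ i' ∧ SProp M G (fun j => u j i) (fun j => u j i')

/-- (U2S) lower bound for sums of S-units with slow coefficients -/
def ST_U2S : Prop := ∀ (ι : Type) [Fintype ι] [DecidableEq ι] (S : Finset ℕ) (M : Set ℕ)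
  (G : ℕ → ℝ) (a u : ℕ → ι → ℤ) (K ε : ℝ) (v : Option ℕ), (∀ p ∈ S, p.Prime) → Nonempty ι →
  M.Infinite → (∀ B : ℝ, {j | j ∈ M ∧ G j ≤ B}.Finite) → (∀ i, Slow M G (fun j => a j i)) →
  (∀ j ∈ M, ∀ i, SU S (u j i)) → (∀ j ∈ M, ∀ i, |(u j i : ℝ)| ≤ Real.exp (K * G j)) →
  (∀ i i', i ≠ i' → ¬ SProp M G (fun j => u j i) (fun j => u j i')) → 0 < ε → v ∈ plc S →
  {j | j ∈ M ∧ ¬ ∀ i, av v (u j i) * Real.exp (-(ε * G j)) ≤
    av v ((∑ i, a j i * u j i : ℤ) : ℚ)}.Finite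

/-- (GVM) generalized Vandermonde matrices with bounded factors and widely spaced nodes -/
def ST_GVM : Prop := ∀ t : ℕ, ∃ p : Fin t → ℕ, (∀ a, (p a).Prime) ∧
  ∀ (s : Fin t → ℕ) (h : Fin t → Fin t → ℝ), StrictMono s →
    (∀ a i, 1 ≤ h a i ∧ h a i ≤ 1 + Real.log (p a)) →
    (Matrix.of fun a i => (p a : ℝ) ^ (s i) * h a i).det ≠ 0

/-- (T2S) every relation with at most `t` terms and coefficients at most `H` involves a double
zeta value whose first argument is at most `C log (2 H)` -/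
def ST_T2S : Prop := ∀ t : ℕ, ∃ C : ℝ, ∀ (k : ℕ) (W : Finset ℕ) (c : ℕ → ℤ) (c0 : ℤ) (H : ℝ),
  W.Nonempty → W.card ≤ t → (∀ r ∈ W, 2 ≤ r ∧ r < k ∧ c r ≠ 0 ∧ |(c r : ℝ)| ≤ H) →
  |(c0 : ℝ)| ≤ H →
  ∑ r ∈ W, (c r : ℝ) * dz r (k - r) = c0 * ∑' n : ℕ, (1 : ℝ) / ((n + 1 : ℕ) : ℝ) ^ k →
  ∃ r ∈ W, (r : ℝ) ≤ C * Real.log (2 * H)

end Pool.Agent.Helper70.SUB
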